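import Pool.Agent.helper15.P2.SpecI
import Pool.Agent.helper80.EG.Tools

set_option autoImplicit false

open scoped ContDiff Topology ComplexConjugate
open MeasureTheory Filter Set Metric

namespace Pool.Agent.P2I

open Pool.Agent.P2

/-! ### Part A: the size of the image of a smaller disc is bounded by the area of the image -/

theorem IS4_deriv {X : ℂ → ℂ} {r : ℝ} (hr : 0 < r) (hX : DifferentiableOn ℂ X (ball 0 (3 * r / 2)))
    (hi : InjOn X (ball 0 (3 * r / 2))) {s : ℂ} (hs : s ∈ ball (0 : ℂ) (5 * r / 4)) :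
    ENNReal.ofReal (Real.pi * (r / 4) ^ 2 * ‖deriv X s‖ ^ 2) ≤ volume (X '' ball 0 (3 * r / 2)) := by
  have hsub : ball s (r / 4) ⊆ ball (0 : ℂ) (3 * r / 2) := by
    apply ball_subset_ball'
    rw [mem_ball] at hs
    linarith
  have h1 := EG80.TL_sq (g := deriv X) (a := s) (r := r / 4) (by positivity)
    ((hX.deriv isOpen_ball).mono hsub)
  refine h1.trans ?_
  have h2 := EG80.TL_cv (g := X) (U := ball 0 (3 * r / 2)) (S := ball 0 (3 * r / 2)) isOpen_ball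
    measurableSet_ball (le_refl _) hX hi (fun _ => 1)
  have h3 : ∫⁻ _ in X '' ball 0 (3 * r / 2), (1 : ENNReal) = volume (X '' ball 0 (3 * r / 2)) := by
    rw [setLIntegral_one]
  rw [h3] at h2
  rw [h2]
  simp only [mul_one]
  exact lintegral_mono_set hsub

theorem IS4_area {X : ℂ → ℂ} {r : ℝ} (hr : 0 < r) (hX : DifferentiableOn ℂ X (ball 0 (3 * r / 2)))
    (hi : InjOn X (ball 0 (3 * r / 2))) (hfin : volume (X '' ball 0 (3 * r / 2)) ≠ ⊤) {s₁ s₂ : ℂ}
    (h1 : s₁ ∈ ball (0 : ℂ) (5 * r / 4)) (h2 : s₂ ∈ ball (0 : ℂ) (5 * r / 4)) :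
    ‖X s₁ - X s₂‖ ^ 2 ≤ 36 * (volume (X '' ball 0 (3 * r / 2))).toReal := by
  obtain ⟨a, ha⟩ : ∃ a : ℝ, a = (volume (X '' ball 0 (3 * r / 2))).toReal := ⟨_, rfl⟩
  have ha0 : 0 ≤ a := by rw [ha]; exact ENNReal.toReal_nonneg
  rw [← ha]
  have hpi := Real.pi_pos
  have hd : ∀ s ∈ ball (0 : ℂ) (5 * r / 4), ‖deriv X s‖ ≤ Real.sqrt (a / (Real.pi * (r / 4) ^ 2)) := by
    intro s hs
    apply Real.le_sqrt_of_sq_le
    rw [le_div_iff₀ (by positivity)]
    have h3 := IS4_deriv hr hX hi hs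
    have h4 := ENNReal.toReal_mono hfin h3
    rw [← ha, ENNReal.toReal_ofReal (by positivity)] at h4
    linarith
  have hsub : ball (0 : ℂ) (5 * r / 4) ⊆ ball 0 (3 * r / 2) := ball_subset_ball (by linarith)
  have h5 : ‖X s₁ - X s₂‖ ≤ Real.sqrt (a / (Real.pi * (r / 4) ^ 2)) * ‖s₁ - s₂‖ := by
    refine Convex.norm_image_sub_le_of_norm_deriv_le (s := ball (0 : ℂ) (5 * r / 4)) ?_ hd
      (convex_ball _ _) h2 h1
    intro s hs
    exact hX.differentiableAt (isOpen_ball.mem_nhds (hsub hs))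
  have h6 : ‖s₁ - s₂‖ ≤ 5 * r / 2 := by
    rw [mem_ball_zero_iff] at h1 h2
    have := norm_sub_le s₁ s₂
    linarith
  have h7 : ‖X s₁ - X s₂‖ ^ 2 ≤ (Real.sqrt (a / (Real.pi * (r / 4) ^ 2)) * (5 * r / 2)) ^ 2 := by
    apply pow_le_pow_left₀ (norm_nonneg _)
    exact h5.trans (mul_le_mul_of_nonneg_left h6 (Real.sqrt_nonneg _))
  refine h7.trans ?_
  rw [mul_pow, Real.sq_sqrt (by positivity)]
  have h8 : a / (Real.pi * (r / 4) ^ 2) * (5 * r / 2) ^ 2 = 100 * a / Real.pi := by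
    field_simp
    ring
  rw [h8, div_le_iff₀ hpi]
  have h9 := Real.pi_gt_three
  nlinarith

/-! ### Part B: uniqueness of branches over a point of the sphere -/

theorem IS4_locinv {f X Y : ℂ → ℂ} {s w : ℂ} (hf : AnalyticAt ℂ f w) (hf' : deriv f w ≠ 0)
    (hX : ContinuousAt X s) (hY : ContinuousAt Y s) (hXw : X s = w) (hYw : Y s = w)
    (h : ∀ᶠ u in 𝓝 s, f (X u) = f (Y u)) : ∀ᶠ u in 𝓝 s, X u = Y u := by
  have h1 : HasStrictDerivAt f (deriv f w) w := hf.hasStrictDerivAt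
  have h2 := (h1.hasStrictFDerivAt_equiv hf').eventually_left_inverse
  have hX' : Tendsto X (𝓝 s) (𝓝 w) := by rw [← hXw]; exact hX
  have hY' : Tendsto Y (𝓝 s) (𝓝 w) := by rw [← hYw]; exact hY
  filter_upwards [hX'.eventually h2, hY'.eventually h2, h] with u a b c
  rw [← a, ← b, c]

theorem IS4_disj (hBRA : BRA_stmt) {P Q : ℂ → ℂ} (hA : Adm P Q) {x x' : ℂ} (hx : x ∈ ball (0 : ℂ) 1)
    (hx' : x' ∈ ball (0 : ℂ) 1) {lam : ℂ} (hl : lam ≠ 0) (hP : P x' = lam * P x) (hQ : Q x' = lam * Q x)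
    {τ : ℝ} (hτ : 0 < τ) {X X' : ℂ → ℂ} (hX : Br P Q (ball 0 1) x τ X) (hX' : Br P Q (ball 0 1) x' τ X')
    {s s' : ℂ} (hs : s ∈ ball (0 : ℂ) τ) (hs' : s' ∈ ball (0 : ℂ) τ) (he : X s = X' s') : x = x' := by
  obtain ⟨hB1, hB2, -⟩ := hBRA P Q hA x hx
  obtain ⟨-, hB2', -⟩ := hBRA P Q hA x' hx'
  obtain ⟨hWx, hinj, hX3⟩ := hB2 τ X hτ hX
  obtain ⟨-, -, hX3'⟩ := hB2' τ X' hτ hX'
  have hcl : conj lam ≠ 0 := (map_ne_zero _).mpr hl
  -- comparison of the two coordinates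
  have hcmp : ∀ w, Hz P Q x' w = lam / conj lam * Hz P Q x w := by
    intro w
    unfold Hz
    rw [hP, hQ, map_mul, map_mul]
    have e1 : Q w * (lam * P x) - P w * (lam * Q x) = lam * (Q w * P x - P w * Q x) := by ring
    have e2 : P w * (conj lam * conj (P x)) + Q w * (conj lam * conj (Q x)) =
        conj lam * (P w * conj (P x) + Q w * conj (Q x)) := by ring
    rw [e1, e2, mul_div_mul_comm]
  obtain ⟨μ, hμ⟩ : ∃ μ : ℂ, μ = lam / conj lam := ⟨_, rfl⟩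
  rw [← hμ] at hcmp
  have hμ0 : μ ≠ 0 := by rw [hμ]; exact div_ne_zero hl hcl
  have hμ1 : ‖μ‖ = 1 := by
    rw [hμ, norm_div, RCLike.norm_conj, div_self (norm_ne_zero_iff.mpr hl)]
  have hμm : ∀ u ∈ ball (0 : ℂ) τ, μ * u ∈ ball (0 : ℂ) τ := by
    intro u hu
    rw [mem_ball_zero_iff] at hu ⊢
    rw [norm_mul, hμ1, one_mul]
    exact hu
  obtain ⟨Y, hY⟩ : ∃ Y : ℂ → ℂ, Y = fun u => X' (μ * u) := ⟨_, rfl⟩
  have hXd : DifferentiableOn ℂ X (ball 0 τ) := hX.1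
  have hYd : DifferentiableOn ℂ Y (ball 0 τ) := by
    rw [hY]
    exact hX'.1.comp (differentiableOn_id.const_mul μ) (fun u hu => hμm u hu)
  have hYc : ∀ u ∈ ball (0 : ℂ) τ, Hz P Q x (Y u) = u := by
    intro u hu
    have h1 := (hX3' _ (hμm u hu)).2.1
    rw [hcmp] at h1
    have h2 : Y u = X' (μ * u) := by rw [hY]
    rw [h2]
    exact mul_left_cancel₀ hμ0 h1
  have hXc : ∀ u ∈ ball (0 : ℂ) τ, Hz P Q x (X u) = u := fun u hu => (hX3 u hu).2.1
  -- the two functions agree at `s`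
  have hYs : Y s = X s := by
    have h1 := hXc s hs
    have h2 := (hX3' s' hs').2.1
    rw [hcmp, ← he, h1] at h2
    rw [hY]
    simp only
    rw [h2, he]
  -- the coordinate is analytic with nonzero derivative
  obtain ⟨hden, -, hW, -⟩ := hX3 s hs
  have hwb : X s ∈ ball (0 : ℂ) 1 := (hX.2.2 s hs).1
  have hPa : AnalyticAt ℂ P (X s) := hA.1.analyticAt (isOpen_ball.mem_nhds hwb)
  have hQa : AnalyticAt ℂ Q (X s) := hA.2.1.analyticAt (isOpen_ball.mem_nhds hwb)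
  have hfa : AnalyticAt ℂ (Hz P Q x) (X s) := by
    unfold Hz
    exact ((hQa.mul analyticAt_const).sub (hPa.mul analyticAt_const)).div
      ((hPa.mul analyticAt_const).add (hQa.mul analyticAt_const)) hden
  have hf' : deriv (Hz P Q x) (X s) ≠ 0 := by
    intro h0
    have h1 := (hB1 (X s) hwb hden).2
    rw [h0, map_zero] at h1
    have h2 : 0 < sph P Q (X s) := by
      unfold sph
      apply div_pos (Complex.normSq_pos.mpr hW)
      have h3 : 0 ≤ Complex.normSq (P (X s)) := Complex.normSq_nonneg _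
      have h4 : 0 ≤ Complex.normSq (Q (X s)) := Complex.normSq_nonneg _
      rcases hA.2.2 (X s) hwb with h5 | h5
      · have := Complex.normSq_pos.mpr h5
        positivity
      · have := Complex.normSq_pos.mpr h5
        positivity
    have h5 : 0 ≤ Complex.normSq (Hz P Q x (X s)) := Complex.normSq_nonneg _
    have h6 : 0 < sph P Q (X s) * (1 + Complex.normSq (Hz P Q x (X s))) ^ 2 := by positivity
    linarith
  have hev : ∀ᶠ u in 𝓝 s, X u = Y u := by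
    refine IS4_locinv hfa hf' (hXd.continuousOn.continuousAt (isOpen_ball.mem_nhds hs))
      (hYd.continuousOn.continuousAt (isOpen_ball.mem_nhds hs)) rfl hYs ?_
    filter_upwards [isOpen_ball.mem_nhds hs] with u hu
    rw [hXc u hu, hYc u hu]
  have hXa : AnalyticOnNhd ℂ X (ball 0 τ) := hXd.analyticOnNhd isOpen_ball
  have hYa : AnalyticOnNhd ℂ Y (ball 0 τ) := hYd.analyticOnNhd isOpen_ball
  have hpre : IsPreconnected (ball (0 : ℂ) τ) := (convex_ball _ _).isPreconnected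
  have heq := hXa.eqOn_of_preconnected_of_eventuallyEq hYa hpre hs hev
  have h0 : (0 : ℂ) ∈ ball (0 : ℂ) τ := mem_ball_self hτ
  have h1 := heq h0
  rw [hX.2.1] at h1
  rw [h1, hY]
  simp only
  rw [mul_zero, hX'.2.1]

/-! ### Part C: a finite set of points of the sphere -/

theorem IS4_cover (ε : ℝ) (hε : 0 < ε) (hε1 : ε ≤ 1) : ∃ F : Finset (ℂ × ℂ), (∀ c ∈ F, c.1 ≠ 0 ∨ c.2 ≠ 0) ∧
    ∀ a b : ℂ, (a ≠ 0 ∨ b ≠ 0) → ∃ c ∈ F, c.1 * conj a + c.2 * conj b ≠ 0 ∧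
      ‖(c.2 * a - c.1 * b) / (c.1 * conj a + c.2 * conj b)‖ < ε := by
  obtain ⟨t, hts, htf, htc⟩ := (isCompact_sphere (0 : ℂ × ℂ) 1).finite_cover_balls (e := ε / 8) (by positivity)
  refine ⟨htf.toFinset, ?_, ?_⟩
  · intro c hc
    rw [Set.Finite.mem_toFinset] at hc
    have h1 := hts hc
    rw [mem_sphere_zero_iff_norm] at h1
    by_contra h2
    rw [not_or, not_not, not_not] at h2
    have h3 : c = 0 := Prod.ext h2.1 h2.2
    rw [h3, norm_zero] at h1
    exact zero_ne_one h1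
  · intro a b hab
    obtain ⟨ρ, hρ⟩ : ∃ ρ : ℝ, ρ = ‖((a, b) : ℂ × ℂ)‖ := ⟨_, rfl⟩
    have hρ0 : 0 < ρ := by
      rw [hρ, norm_pos_iff]
      intro h
      rcases hab with h1 | h1
      · exact h1 (congrArg Prod.fst h)
      · exact h1 (congrArg Prod.snd h)
    have hρc : (ρ : ℂ) ≠ 0 := by exact_mod_cast hρ0.ne'
    obtain ⟨a', ha'⟩ : ∃ a' : ℂ, a' = a / ρ := ⟨_, rfl⟩
    obtain ⟨b', hb'⟩ : ∃ b' : ℂ, b' = b / ρ := ⟨_, rfl⟩
    have haa : a = ρ * a' := by rw [ha', mul_div_cancel₀ _ hρc]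
    have hbb : b = ρ * b' := by rw [hb', mul_div_cancel₀ _ hρc]
    have hm : max ‖a'‖ ‖b'‖ = 1 := by
      have h1 : ρ = max ‖a‖ ‖b‖ := by rw [hρ]; rfl
      have h2 : max ‖a‖ ‖b‖ = ρ * max ‖a'‖ ‖b'‖ := by
        rw [haa, hbb, norm_mul, norm_mul, Complex.norm_real, Real.norm_eq_abs, abs_of_pos hρ0,
          mul_max_of_nonneg _ _ hρ0.le]
      rw [← h1] at h2
      have h3 : ρ * max ‖a'‖ ‖b'‖ = ρ * 1 := by rw [← h2, mul_one]
      exact mul_left_cancel₀ hρ0.ne' h3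
    have hmem : ((a', b') : ℂ × ℂ) ∈ sphere (0 : ℂ × ℂ) 1 := by
      rw [mem_sphere_zero_iff_norm]
      exact hm
    have h1 := htc hmem
    rw [Set.mem_iUnion₂] at h1
    obtain ⟨c, hct, hcb⟩ := h1
    refine ⟨c, htf.mem_toFinset.mpr hct, ?_⟩
    rw [mem_ball, dist_eq_norm] at hcb
    have hc1 : ‖a' - c.1‖ < ε / 8 := lt_of_le_of_lt (norm_fst_le (((a', b') : ℂ × ℂ) - c)) hcb
    have hc2 : ‖b' - c.2‖ < ε / 8 := lt_of_le_of_lt (norm_snd_le (((a', b') : ℂ × ℂ) - c)) hcb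
    have ha1 : ‖a'‖ ≤ 1 := hm ▸ le_max_left _ _
    have hb1 : ‖b'‖ ≤ 1 := hm ▸ le_max_right _ _
    have hN : ‖c.2 * a' - c.1 * b'‖ ≤ ε / 4 := by
      have e1 : c.2 * a' - c.1 * b' = (a' - c.1) * b' - (b' - c.2) * a' := by ring
      rw [e1]
      refine (norm_sub_le _ _).trans ?_
      rw [norm_mul, norm_mul]
      have h2 : ‖a' - c.1‖ * ‖b'‖ ≤ ε / 8 * 1 :=
        mul_le_mul hc1.le hb1 (norm_nonneg _) (by positivity)
      have h3 : ‖b' - c.2‖ * ‖a'‖ ≤ ε / 8 * 1 :=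
        mul_le_mul hc2.le ha1 (norm_nonneg _) (by positivity)
      linarith
    have hD : 1 - ε / 4 ≤ ‖c.1 * conj a' + c.2 * conj b'‖ := by
      have e1 : c.1 * conj a' + c.2 * conj b' = (a' * conj a' + b' * conj b') -
          ((a' - c.1) * conj a' + (b' - c.2) * conj b') := by ring
      have h2 : ‖(a' - c.1) * conj a' + (b' - c.2) * conj b'‖ ≤ ε / 4 := by
        refine (norm_add_le _ _).trans ?_
        rw [norm_mul, norm_mul, RCLike.norm_conj, RCLike.norm_conj]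
        have h2 : ‖a' - c.1‖ * ‖a'‖ ≤ ε / 8 * 1 :=
          mul_le_mul hc1.le ha1 (norm_nonneg _) (by positivity)
        have h3 : ‖b' - c.2‖ * ‖b'‖ ≤ ε / 8 * 1 :=
          mul_le_mul hc2.le hb1 (norm_nonneg _) (by positivity)
        linarith
      have h3 : 1 ≤ ‖a' * conj a' + b' * conj b'‖ := by
        rw [Complex.mul_conj, Complex.mul_conj, ← Complex.ofReal_add, Complex.norm_real, Real.norm_eq_abs]
        refine le_trans ?_ (le_abs_self _)
        rw [Complex.normSq_eq_norm_sq, Complex.normSq_eq_norm_sq]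
        rcases max_choice ‖a'‖ ‖b'‖ with h4 | h4
        · rw [h4] at hm
          rw [hm]
          nlinarith [sq_nonneg ‖b'‖]
        · rw [h4] at hm
          rw [hm]
          nlinarith [sq_nonneg ‖a'‖]
      rw [e1]
      have h4 := norm_sub_norm_le (a' * conj a' + b' * conj b') ((a' - c.1) * conj a' + (b' - c.2) * conj b')
      linarith
    have hD0 : c.1 * conj a' + c.2 * conj b' ≠ 0 := by
      intro h
      rw [h, norm_zero] at hD
      linarith
    have hconjρ : conj (ρ : ℂ) = (ρ : ℂ) := Complex.conj_ofReal ρ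
    have e3 : c.1 * conj a + c.2 * conj b = ρ * (c.1 * conj a' + c.2 * conj b') := by
      rw [haa, hbb, map_mul, map_mul, hconjρ]; ring
    have e4 : c.2 * a - c.1 * b = ρ * (c.2 * a' - c.1 * b') := by
      rw [haa, hbb]; ring
    refine ⟨?_, ?_⟩
    · rw [e3]
      exact mul_ne_zero hρc hD0
    · rw [e3, e4, mul_div_mul_left _ _ hρc, norm_div, div_lt_iff₀ (by linarith)]
      nlinarith

/-! ### Part D: the island over a centre -/

theorem IS4_geo (hBRA : BRA_stmt) (hBRC : BRC_stmt) (hBRS : BRS_stmt) {P Q : ℂ → ℂ} (hA : Adm P Q) {r t : ℝ}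
    (hr : 0 < r) (hr8 : r ≤ 1 / 8) (ht : 0 < t) {z : ℂ} (hz : z ∈ ball (0 : ℂ) 1) (hrh : 2 * r < rh P Q z)
    (hno : ¬ ∃ X : ℂ → ℂ, Br P Q (ball 0 1 ∩ ball z t) z r X) {c : ℂ × ℂ}
    (hD : c.1 * conj (P z) + c.2 * conj (Q z) ≠ 0)
    (hc : ‖(c.2 * P z - c.1 * Q z) / (c.1 * conj (P z) + c.2 * conj (Q z))‖ < r / 8) :
    ∃ x ∈ ball (0 : ℂ) 1, P x * c.2 = Q x * c.1 ∧ ∃ Y : ℂ → ℂ, Br P Q (ball 0 1) x (3 * r / 2) Y ∧
      t ^ 2 ≤ 36 * (volume (Y '' ball 0 (3 * r / 2))).toReal ∧ z ∈ Y '' ball 0 (3 * r / 4) := by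
  obtain ⟨hrh0, hrh1, ⟨X, hX⟩, -, -⟩ := hBRC P Q hA z hz
  obtain ⟨t₀, ht₀⟩ : ∃ t₀ : ℂ, t₀ = (c.2 * P z - c.1 * Q z) / (c.1 * conj (P z) + c.2 * conj (Q z)) := ⟨_, rfl⟩
  rw [← ht₀] at hc
  have hτ : 0 < rh P Q z := by linarith
  have ht₀m : t₀ ∈ ball (0 : ℂ) (rh P Q z) := by
    rw [mem_ball_zero_iff]
    linarith
  obtain ⟨hXd, hX0, hXt⟩ := id hX
  have hxb : X t₀ ∈ ball (0 : ℂ) 1 := (hXt t₀ ht₀m).1
  refine ⟨X t₀, hxb, ?_, ?_⟩
  · -- the fibre
    have h1 := (hXt t₀ ht₀m).2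
    obtain ⟨D, hDd⟩ : ∃ D : ℂ, D = c.1 * conj (P z) + c.2 * conj (Q z) := ⟨_, rfl⟩
    obtain ⟨M, hM⟩ : ∃ M : ℂ, M = P z * conj (P z) + Q z * conj (Q z) := ⟨_, rfl⟩
    rw [← hDd] at hD ht₀
    have h2 : D * (Q z + t₀ * conj (P z)) = c.2 * M := by
      have e1 : D * t₀ = c.2 * P z - c.1 * Q z := by
        rw [ht₀, mul_div_cancel₀ _ hD]
      calc D * (Q z + t₀ * conj (P z)) = D * Q z + (D * t₀) * conj (P z) := by ring
        _ = c.2 * M := by rw [e1, hDd, hM]; ring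
    have h3 : D * (P z - t₀ * conj (Q z)) = c.1 * M := by
      have e1 : D * t₀ = c.2 * P z - c.1 * Q z := by
        rw [ht₀, mul_div_cancel₀ _ hD]
      calc D * (P z - t₀ * conj (Q z)) = D * P z - (D * t₀) * conj (Q z) := by ring
        _ = c.1 * M := by rw [e1, hDd, hM]; ring
    have hM0 : M ≠ 0 := by
      rw [hM, Complex.mul_conj, Complex.mul_conj, ← Complex.ofReal_add]
      have h4 : 0 ≤ Complex.normSq (P z) := Complex.normSq_nonneg _
      have h5 : 0 ≤ Complex.normSq (Q z) := Complex.normSq_nonneg _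
      have h6 : 0 < Complex.normSq (P z) + Complex.normSq (Q z) := by
        rcases hA.2.2 z hz with h7 | h7
        · have := Complex.normSq_pos.mpr h7
          linarith
        · have := Complex.normSq_pos.mpr h7
          linarith
      exact_mod_cast h6.ne'
    have h4 : P (X t₀) * (c.2 * M) = Q (X t₀) * (c.1 * M) := by
      rw [← h2, ← h3]
      calc P (X t₀) * (D * (Q z + t₀ * conj (P z))) = D * (P (X t₀) * (Q z + t₀ * conj (P z))) := by ring
        _ = D * (Q (X t₀) * (P z - t₀ * conj (Q z))) := by rw [h1]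
        _ = Q (X t₀) * (D * (P z - t₀ * conj (Q z))) := by ring
    have h5 : (P (X t₀) * c.2) * M = (Q (X t₀) * c.1) * M := by
      calc (P (X t₀) * c.2) * M = P (X t₀) * (c.2 * M) := by ring
        _ = Q (X t₀) * (c.1 * M) := h4
        _ = (Q (X t₀) * c.1) * M := by ring
    exact mul_right_cancel₀ hM0 h5
  · obtain ⟨l, hl1, hl⟩ := hBRS P Q hA z hz (ball 0 1) (rh P Q z) X (le_refl _) hrh1 hX t₀ ht₀m
    have hll : l * conj l = 1 := by
      rw [Complex.mul_conj, Complex.normSq_eq_norm_sq, hl1]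
      norm_num
    have hBr := hl (3 * r / 2) (by
      intro s hs
      rw [mem_ball_zero_iff] at hs
      have h1 : ‖s + t₀‖ < 13 * r / 8 := by
        have := norm_add_le s t₀
        linarith
      have h2 : 1 - r / 8 * (3 * r / 2) ≤ ‖1 - conj t₀ * s‖ := by
        have h3 := norm_sub_norm_le (1 : ℂ) (conj t₀ * s)
        rw [norm_one, norm_mul, RCLike.norm_conj] at h3
        have h4 : ‖t₀‖ * ‖s‖ ≤ r / 8 * (3 * r / 2) :=
          mul_le_mul hc.le hs.le (norm_nonneg _) (by positivity)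
        linarith
      have h5 : (1 : ℝ) - 3 / 1024 ≤ 1 - r / 8 * (3 * r / 2) := by nlinarith
      have h6 : 2 * r * (1 - 3 / 1024) ≤ rh P Q z * ‖1 - conj t₀ * s‖ :=
        mul_le_mul hrh.le (h5.trans h2) (by norm_num) hτ.le
      linarith)
    obtain ⟨Y, hY⟩ : ∃ Y : ℂ → ℂ, Y = fun s => X ((l * s + t₀) / (1 - conj t₀ * (l * s))) := ⟨_, rfl⟩
    rw [← hY] at hBr
    -- points of the smaller disc
    have hpt : ∀ u : ℂ, ‖u‖ < r → ∃ s : ℂ, ‖s‖ * (1 - ‖t₀‖ * ‖u‖) ≤ ‖u - t₀‖ ∧ Y s = X u := by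
      intro u hu
      have hden : 1 - ‖t₀‖ * ‖u‖ ≤ ‖1 + conj t₀ * u‖ := by
        have h3 := norm_sub_norm_le (1 : ℂ) (-(conj t₀ * u))
        rw [norm_one, norm_neg, norm_mul, RCLike.norm_conj, sub_neg_eq_add] at h3
        exact h3
      have h4 : ‖t₀‖ * ‖u‖ ≤ r / 8 * r := mul_le_mul hc.le hu.le (norm_nonneg _) (by positivity)
      have hpos : 0 < 1 - ‖t₀‖ * ‖u‖ := by nlinarith
      have hne : 1 + conj t₀ * u ≠ 0 := by
        intro h
        rw [h, norm_zero] at hden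
        linarith
      refine ⟨conj l * ((u - t₀) / (1 + conj t₀ * u)), ?_, ?_⟩
      · rw [norm_mul, RCLike.norm_conj, hl1, one_mul, norm_div]
        rw [div_mul_eq_mul_div, div_le_iff₀ (norm_pos_iff.mpr hne)]
        exact mul_le_mul_of_nonneg_left hden (norm_nonneg _)
      · rw [hY]
        simp only
        have e1 : l * (conj l * ((u - t₀) / (1 + conj t₀ * u))) = (u - t₀) / (1 + conj t₀ * u) := by
          rw [← mul_assoc, hll, one_mul]
        rw [e1]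
        have h5 : (1 : ℂ) + conj t₀ * t₀ ≠ 0 := by
          intro h
          have h6 : ‖(1 : ℂ)‖ = ‖conj t₀ * t₀‖ := by
            have : (1 : ℂ) = -(conj t₀ * t₀) := by linear_combination h
            calc ‖(1 : ℂ)‖ = ‖-(conj t₀ * t₀)‖ := by rw [← this]
              _ = ‖conj t₀ * t₀‖ := norm_neg _
          rw [norm_one, norm_mul, RCLike.norm_conj] at h6
          have h7 : ‖t₀‖ * ‖t₀‖ ≤ 1 / 64 * (1 / 64) := by
            apply mul_le_mul _ _ (norm_nonneg _) (by norm_num) <;> linarith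
          linarith
        have e2 : ((u - t₀) / (1 + conj t₀ * u) + t₀) = u * (1 + conj t₀ * t₀) / (1 + conj t₀ * u) := by
          rw [eq_div_iff hne, add_mul, div_mul_cancel₀ _ hne]
          ring
        have e3 : 1 - conj t₀ * ((u - t₀) / (1 + conj t₀ * u)) = (1 + conj t₀ * t₀) / (1 + conj t₀ * u) := by
          field_simp
          ring
        rw [e2, e3, div_div_div_cancel_right₀ hne, mul_div_assoc, div_self h5, mul_one]
    -- the point `z`
    obtain ⟨s₀, hs₀, hYs₀⟩ := hpt 0 (by rw [norm_zero]; exact hr)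
    rw [norm_zero, mul_zero, sub_zero, mul_one, zero_sub, norm_neg] at hs₀
    rw [hX0] at hYs₀
    -- a point with large distance
    have hfar : ∃ u : ℂ, ‖u‖ < r ∧ t ≤ ‖X u - z‖ := by
      by_contra hcon
      apply hno
      refine ⟨X, hXd.mono (ball_subset_ball (by linarith)), hX0, ?_⟩
      intro u hu
      have hu' : u ∈ ball (0 : ℂ) (rh P Q z) := by
        rw [mem_ball_zero_iff] at hu ⊢
        linarith
      refine ⟨⟨(hXt u hu').1, ?_⟩, (hXt u hu').2⟩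
      rw [mem_ball, dist_eq_norm]
      by_contra h
      exact hcon ⟨u, mem_ball_zero_iff.mp hu, not_lt.mp h⟩
    obtain ⟨u, hu, htu⟩ := hfar
    obtain ⟨s₁, hs₁, hYs₁⟩ := hpt u hu
    have hs₀m : s₀ ∈ ball (0 : ℂ) (5 * r / 4) := by
      rw [mem_ball_zero_iff]
      linarith
    have hs₁m : s₁ ∈ ball (0 : ℂ) (5 * r / 4) := by
      rw [mem_ball_zero_iff]
      have h4 : ‖t₀‖ * ‖u‖ ≤ r / 8 * r := mul_le_mul hc.le hu.le (norm_nonneg _) (by positivity)
      have h5 : (511 : ℝ) / 512 ≤ 1 - ‖t₀‖ * ‖u‖ := by nlinarith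
      have h6 : ‖s₁‖ * (511 / 512) ≤ ‖s₁‖ * (1 - ‖t₀‖ * ‖u‖) :=
        mul_le_mul_of_nonneg_left h5 (norm_nonneg _)
      have h7 := norm_sub_le u t₀
      linarith
    refine ⟨Y, hBr, ?_, ?_⟩
    · obtain ⟨-, hinj, -⟩ := (hBRA P Q hA (X t₀) hxb).2.1 (3 * r / 2) Y (by positivity) hBr
      have hfin : volume (Y '' ball 0 (3 * r / 2)) ≠ ⊤ := by
        apply ne_of_lt
        refine lt_of_le_of_lt (measure_mono ?_) (measure_ball_lt_top (x := (0 : ℂ)) (r := 1))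
        rintro w ⟨s, hs, rfl⟩
        exact (hBr.2.2 s hs).1
      have h8 := IS4_area hr hBr.1 hinj hfin hs₁m hs₀m
      rw [hYs₁, hYs₀] at h8
      refine le_trans ?_ h8
      exact pow_le_pow_left₀ ht.le htu 2
    · refine ⟨s₀, ?_, hYs₀⟩
      rw [mem_ball_zero_iff]
      linarith

/-! ### Part E: the number of large islands over a centre -/

theorem IS4_count (hBRA : BRA_stmt) {P Q : ℂ → ℂ} (hA : Adm P Q) {r t : ℝ} (hr : 0 < r)
    {c : ℂ × ℂ} (hc : c.1 ≠ 0 ∨ c.2 ≠ 0) (S : Finset ℂ) (Y : ℂ → ℂ → ℂ)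
    (hS : ∀ x ∈ S, x ∈ ball (0 : ℂ) 1 ∧ P x * c.2 = Q x * c.1 ∧ Br P Q (ball 0 1) x (3 * r / 2) (Y x) ∧
      t ^ 2 ≤ 36 * (volume (Y x '' ball 0 (3 * r / 2))).toReal) :
    (S.card : ℝ) * t ^ 2 ≤ 36 * Real.pi := by
  have hsub : ∀ x ∈ S, Y x '' ball 0 (3 * r / 2) ⊆ ball 0 1 := by
    rintro x hx w ⟨s, hs, rfl⟩
    exact ((hS x hx).2.2.1.2.2 s hs).1
  have hmeas : ∀ x ∈ S, MeasurableSet (Y x '' ball 0 (3 * r / 2)) := by
    intro x hx
    obtain ⟨h1, h2, h3, h4⟩ := hS x hx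
    obtain ⟨-, hinj, -⟩ := (hBRA P Q hA x h1).2.1 (3 * r / 2) (Y x) (by positivity) h3
    exact measurableSet_ball.image_of_continuousOn_injOn h3.1.continuousOn hinj
  have hfib : ∀ x ∈ S, ∃ m : ℂ, m ≠ 0 ∧ P x = m * c.1 ∧ Q x = m * c.2 := by
    intro x hx
    obtain ⟨h1, h2, -, -⟩ := hS x hx
    rcases hc with h3 | h3
    · refine ⟨P x / c.1, ?_, ?_, ?_⟩
      · rw [div_ne_zero_iff]
        refine ⟨?_, h3⟩
        intro h4
        rw [h4, zero_mul] at h2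
        have h5 : Q x = 0 := by
          rcases mul_eq_zero.mp h2.symm with h6 | h6
          · exact h6
          · exact absurd h6 h3
        rcases hA.2.2 x h1 with h6 | h6
        · exact h6 h4
        · exact h6 h5
      · rw [div_mul_cancel₀ _ h3]
      · rw [div_mul_eq_mul_div, h2, mul_div_assoc, div_self h3, mul_one]
    · refine ⟨Q x / c.2, ?_, ?_, ?_⟩
      · rw [div_ne_zero_iff]
        refine ⟨?_, h3⟩
        intro h4
        rw [h4, zero_mul] at h2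
        have h5 : P x = 0 := by
          rcases mul_eq_zero.mp h2 with h6 | h6
          · exact h6
          · exact absurd h6 h3
        rcases hA.2.2 x h1 with h6 | h6
        · exact h6 h5
        · exact h6 h4
      · rw [div_mul_eq_mul_div, ← h2, mul_div_assoc, div_self h3, mul_one]
      · rw [div_mul_cancel₀ _ h3]
  have hdisj : (S : Set ℂ).PairwiseDisjoint (fun x => Y x '' ball 0 (3 * r / 2)) := by
    intro x hx x' hx' hne
    rw [Function.onFun, Set.disjoint_left]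
    rintro w ⟨s, hs, hw⟩ ⟨s', hs', hw'⟩
    apply hne
    obtain ⟨m, hm, hmP, hmQ⟩ := hfib x hx
    obtain ⟨m', hm', hmP', hmQ'⟩ := hfib x' hx'
    refine IS4_disj hBRA hA (hS x hx).1 (hS x' hx').1 (lam := m' / m) (div_ne_zero hm' hm) ?_ ?_
      (show (0 : ℝ) < 3 * r / 2 by positivity) (hS x hx).2.2.1 (hS x' hx').2.2.1 hs hs' (hw.trans hw'.symm)
    · rw [hmP, hmP', ← mul_assoc, div_mul_cancel₀ _ hm]
    · rw [hmQ, hmQ', ← mul_assoc, div_mul_cancel₀ _ hm]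
  have h1 : ∑ x ∈ S, volume (Y x '' ball 0 (3 * r / 2)) ≤ volume (ball (0 : ℂ) 1) := by
    rw [← measure_biUnion_finset hdisj hmeas]
    exact measure_mono (Set.iUnion₂_subset hsub)
  have h2 : volume (ball (0 : ℂ) 1) = ENNReal.ofReal Real.pi := by
    rw [Complex.volume_ball, ENNReal.ofReal_one, one_pow, one_mul]
    exact (ENNReal.ofReal_coe_nnreal (p := NNReal.pi)).symm
  have hfin : ∀ x ∈ S, volume (Y x '' ball 0 (3 * r / 2)) ≠ ⊤ := fun x hx =>
    ne_of_lt (lt_of_le_of_lt (measure_mono (hsub x hx)) (measure_ball_lt_top (x := (0 : ℂ)) (r := 1)))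
  have h3 : ∑ x ∈ S, (volume (Y x '' ball 0 (3 * r / 2))).toReal ≤ Real.pi := by
    rw [← ENNReal.toReal_sum hfin]
    have h4 := ENNReal.toReal_mono (by rw [h2]; exact ENNReal.ofReal_ne_top) h1
    rw [h2, ENNReal.toReal_ofReal Real.pi_pos.le] at h4
    exact h4
  have h4 : (S.card : ℝ) * t ^ 2 = ∑ x ∈ S, t ^ 2 := by
    rw [Finset.sum_const, nsmul_eq_mul]
  rw [h4]
  refine (Finset.sum_le_sum fun x hx => (hS x hx).2.2.2).trans ?_
  rw [← Finset.mul_sum]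
  linarith

/-! ### Part F: the theorem -/

theorem IS4_lapcont (T : ℂ → ℝ) (t : ℂ) (h : ContDiffAt ℝ ∞ T t) : ContinuousAt (lap T) t := by
  have h1 : ContinuousAt (iteratedFDeriv ℝ 2 T) t := by
    have h2 : ContDiffAt ℝ 0 (iteratedFDeriv ℝ 2 T) t :=
      h.iteratedFDeriv_right (by rw [zero_add]; exact WithTop.coe_le_coe.2 (le_top : (2 : ℕ∞) ≤ ⊤))
    exact h2.continuousAt
  have h3 : ∀ v : Fin 2 → ℂ, ContinuousAt (fun z => iteratedFDeriv ℝ 2 T z v) t := by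
    intro v
    exact (ContinuousMultilinearMap.apply ℝ (fun _ : Fin 2 => ℂ) ℝ v).continuous.continuousAt.comp h1
  exact ((h3 _).add (h3 _)).const_mul _

theorem IS4_lint {f : ℂ → ℝ} (hfc : ContinuousOn f (ball 0 1)) (hnn : ∀ z ∈ ball (0 : ℂ) 1, 0 ≤ f z)
    {K A : Set ℂ} (hK : IsCompact K) (hKb : K ⊆ ball 0 1) (hAK : A ⊆ K) :
    ∫⁻ z in A, ENNReal.ofReal (f z) = ENNReal.ofReal (∫ z in A, f z) := by
  have h1 : IntegrableOn f A := ((hfc.mono hKb).integrableOn_compact hK).mono_set hAK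
  have h2 : ∀ᵐ z ∂(volume.restrict A), 0 ≤ f z :=
    ae_restrict_of_ae_restrict_of_subset (hAK.trans hKb) (ae_restrict_of_forall_mem measurableSet_ball hnn)
  exact (ofReal_integral_eq_lintegral_ofReal h1 h2).symm

theorem IS4_union {ι : Type} (S : Finset ι) (A : ι → Set ℂ) (f : ℂ → ENNReal) :
    ∫⁻ z in ⋃ i ∈ S, A i, f z ≤ ∑ i ∈ S, ∫⁻ z in A i, f z := by
  classical
  induction S using Finset.induction_on with
  | empty => simp
  | insert a S ha ih =>
    rw [Finset.set_biUnion_insert, Finset.sum_insert ha]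
    exact (lintegral_union_le f _ _).trans (add_le_add le_rfl ih)

theorem IS4 (hBRA : BRA_stmt) (hBRC : BRC_stmt) (hBRS : BRS_stmt) (hIS2 : IS2_stmt) (hISA : ISA_stmt) :
    IS4_stmt := by
  classical
  obtain ⟨C₂, hC₂, h2⟩ := hIS2
  obtain ⟨C₃, hC₃, h3⟩ := hISA
  refine ⟨2 * C₂, by positivity, ?_⟩
  intro r hr hr8
  obtain ⟨F, hF1, hF2⟩ := IS4_cover (r / 8) (by positivity) (by linarith)
  have hpi := Real.pi_pos
  refine ⟨F.card * (36 * Real.pi * C₃) + 1, by positivity, ?_⟩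
  intro P Q V E B t hA hE hU h4 hV hlap hB hVU hlog ht
  -- the centres
  obtain ⟨H, hH⟩ : ∃ H : Set ℂ, H = {x : ℂ | x ∈ ball (0 : ℂ) 1 ∧ ∃ Y : ℂ → ℂ, Br P Q (ball 0 1) x (3 * r / 2) Y ∧
    t ^ 2 ≤ 36 * (volume (Y '' ball 0 (3 * r / 2))).toReal} := ⟨_, rfl⟩
  have hch : ∀ x : ℂ, ∃ Y : ℂ → ℂ, x ∈ H → (Br P Q (ball 0 1) x (3 * r / 2) Y ∧
      t ^ 2 ≤ 36 * (volume (Y '' ball 0 (3 * r / 2))).toReal) := by
    intro x
    by_cases hx : x ∈ H
    · have hx' := hx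
      rw [hH] at hx'
      obtain ⟨-, Y, hY⟩ := hx'
      exact ⟨Y, fun _ => hY⟩
    · exact ⟨fun _ => 0, fun h => absurd h hx⟩
  choose Y hY using hch
  have hHb : ∀ x ∈ H, x ∈ ball (0 : ℂ) 1 := by
    intro x hx
    rw [hH] at hx
    exact hx.1
  obtain ⟨G, hG⟩ : ∃ G : ℂ × ℂ → Set ℂ, G = fun c => {x : ℂ | x ∈ H ∧ P x * c.2 = Q x * c.1} := ⟨_, rfl⟩
  have hcount : ∀ c ∈ F, ∀ S : Finset ℂ, (S : Set ℂ) ⊆ G c → (S.card : ℝ) * t ^ 2 ≤ 36 * Real.pi := by
    intro c hc S hS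
    refine IS4_count hBRA hA hr (hF1 c hc) S Y ?_
    intro x hx
    have h5 := hS hx
    rw [hG] at h5
    exact ⟨hHb x h5.1, h5.2, hY x h5.1⟩
  have ht2 : 0 < t ^ 2 := by positivity
  have hfin : ∀ c ∈ F, (G c).Finite := by
    intro c hc
    by_contra hinf
    obtain ⟨S, hS, hcard⟩ := Set.Infinite.exists_subset_card_eq hinf (⌊36 * Real.pi / t ^ 2⌋₊ + 1)
    have h5 := hcount c hc S hS
    rw [hcard] at h5
    have h6 := Nat.lt_floor_add_one (36 * Real.pi / t ^ 2)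
    rw [div_lt_iff₀ ht2] at h6
    push_cast at h5
    linarith
  have hch2 : ∀ c : ℂ × ℂ, ∃ S : Finset ℂ, c ∈ F → ∀ x, x ∈ S ↔ x ∈ G c := by
    intro c
    by_cases hc : c ∈ F
    · exact ⟨(hfin c hc).toFinset, fun _ x => (hfin c hc).mem_toFinset⟩
    · exact ⟨∅, fun h => absurd h hc⟩
  choose Gf hGf using hch2
  have hGcard : ∀ c ∈ F, ((Gf c).card : ℝ) ≤ 36 * Real.pi / t ^ 2 := by
    intro c hc
    rw [le_div_iff₀ ht2]
    exact hcount c hc (Gf c) (fun x hx => (hGf c hc x).mp hx)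
  -- the cover
  obtain ⟨N, hN⟩ : ∃ N : Set ℂ, N = ball (0 : ℂ) (3 / 4) ∩
    {z | ¬ ∃ X : ℂ → ℂ, Br P Q (ball 0 1 ∩ ball z t) z r X} := ⟨_, rfl⟩
  obtain ⟨N₁, hN₁⟩ : ∃ N₁ : Set ℂ, N₁ = ball (0 : ℂ) (3 / 4) ∩ {z | rh P Q z ≤ 2 * r} := ⟨_, rfl⟩
  rw [← hN]
  have h34 : ball (0 : ℂ) (3 / 4) ⊆ ball 0 1 := ball_subset_ball (by norm_num)
  have hcover : N ⊆ N₁ ∪ ⋃ c ∈ F, ⋃ x ∈ Gf c, Y x '' ball 0 (3 * r / 4) := by
    intro z hz
    rw [hN] at hz
    obtain ⟨hz1, hz2⟩ := hz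
    by_cases hrh : rh P Q z ≤ 2 * r
    · left
      rw [hN₁]
      exact ⟨hz1, hrh⟩
    · right
      rw [not_le] at hrh
      have hzb := h34 hz1
      obtain ⟨c, hc, hD, hcs⟩ := hF2 (P z) (Q z) (hA.2.2 z hzb)
      obtain ⟨x, hxb, hfx, Y', hY', hYt, s, hs, hsz⟩ := IS4_geo hBRA hBRC hBRS hA hr hr8 ht hzb hrh hz2 hD hcs
      have hxH : x ∈ H := by
        rw [hH]
        exact ⟨hxb, Y', hY', hYt⟩
      rw [Set.mem_iUnion₂]
      refine ⟨c, hc, ?_⟩
      rw [Set.mem_iUnion₂]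
      refine ⟨x, ?_, s, hs, ?_⟩
      · rw [hGf c hc, hG]
        exact ⟨hxH, hfx⟩
      · rw [← hsz]
        have hs' : s ∈ ball (0 : ℂ) (3 * r / 2) := ball_subset_ball (by linarith) hs
        exact (hBRA P Q hA x hxb).2.2 (3 * r / 2) (3 * r / 2) (Y x) Y' (hY x hxH).1 hY' s hs' hs'
  -- integrals
  have hfc : ContinuousOn (lap V) (ball 0 1) := fun z hz =>
    (IS4_lapcont V z (hV.contDiffAt (isOpen_ball.mem_nhds hz))).continuousWithinAt
  have hcb : closedBall (0 : ℂ) (3 / 4) ⊆ ball 0 1 := closedBall_subset_ball (by norm_num)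
  have hNK : N ⊆ closedBall 0 (3 / 4) := by
    rw [hN]
    exact Set.inter_subset_left.trans ball_subset_closedBall
  have hN1K : N₁ ⊆ closedBall 0 (3 / 4) := by
    rw [hN₁]
    exact Set.inter_subset_left.trans ball_subset_closedBall
  have hl1 := IS4_lint hfc hlap (isCompact_closedBall (0 : ℂ) (3 / 4)) hcb hNK
  have hl2 := IS4_lint hfc hlap (isCompact_closedBall (0 : ℂ) (3 / 4)) hcb hN1K
  have hl3 : ∀ c ∈ F, ∀ x ∈ Gf c, ∫⁻ z in Y x '' ball 0 (3 * r / 4), ENNReal.ofReal (lap V z) ≤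
      ENNReal.ofReal (C₃ * (1 + B)) := by
    intro c hc x hx
    rw [hGf c hc, hG] at hx
    have hxH : x ∈ H := hx.1
    have hBr := (hY x hxH).1
    have hsub : closedBall (0 : ℂ) (3 * r / 4) ⊆ ball 0 (3 * r / 2) := closedBall_subset_ball (by linarith)
    have hK : IsCompact (Y x '' closedBall 0 (3 * r / 4)) :=
      (isCompact_closedBall (0 : ℂ) (3 * r / 4)).image_of_continuousOn (hBr.1.continuousOn.mono hsub)
    have hKb : Y x '' closedBall 0 (3 * r / 4) ⊆ ball 0 1 := by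
      rintro w ⟨s, hs, rfl⟩
      exact (hBr.2.2 s (hsub hs)).1
    rw [IS4_lint hfc hlap hK hKb (Set.image_mono ball_subset_closedBall)]
    apply ENNReal.ofReal_le_ofReal
    have h5 := h3 P Q V B (3 * r / 2) x (Y x) hA hV hlap hB hVU (hHb x hxH) (by positivity) (by linarith) hBr
    have e1 : 3 * r / 2 / 2 = 3 * r / 4 := by ring
    rw [e1] at h5
    exact h5
  -- the first part
  have hlog8 : Real.log 8 ≤ Real.log (1 / r) := by
    apply Real.log_le_log (by norm_num)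
    rw [le_div_iff₀ hr]
    linarith
  have hlog2 : Real.log 8 = 3 * Real.log 2 := by
    rw [show (8 : ℝ) = 2 ^ 3 by norm_num, Real.log_pow]
    norm_num
  have hl2pos : 0 < Real.log 2 := Real.log_pos (by norm_num)
  have hlogr : Real.log (1 / (2 * r)) = Real.log (1 / r) - Real.log 2 := by
    rw [one_div, one_div, Real.log_inv, Real.log_inv, Real.log_mul (by norm_num) hr.ne']
    ring
  have hlogpos : 0 < Real.log (1 / r) := by linarith
  have hN1 : ∫ z in N₁, lap V z ≤ 2 * C₂ * (1 + B) * E / Real.log (1 / r) := by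
    rw [hN₁]
    have h5 := h2 P Q V E B (2 * r) hA hE hU h4 hV hlap hB hVU (by positivity) (by linarith)
      (by rw [hlogr]; linarith)
    refine h5.trans ?_
    rw [hlogr, div_le_div_iff₀ (by linarith) hlogpos]
    have h6 : 0 ≤ C₂ * (1 + B) * E := by positivity
    have h7 : Real.log (1 / r) ≤ 2 * (Real.log (1 / r) - Real.log 2) := by linarith
    calc C₂ * (1 + B) * E * Real.log (1 / r) ≤ C₂ * (1 + B) * E * (2 * (Real.log (1 / r) - Real.log 2)) :=
          mul_le_mul_of_nonneg_left h7 h6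
      _ = 2 * C₂ * (1 + B) * E * (Real.log (1 / r) - Real.log 2) := by ring
  have hbd0 : 0 ≤ 2 * C₂ * (1 + B) * E / Real.log (1 / r) := by positivity
  -- sum
  have hsum : ∫⁻ z in N, ENNReal.ofReal (lap V z) ≤
      ENNReal.ofReal (2 * C₂ * (1 + B) * E / Real.log (1 / r) + F.card * (36 * Real.pi / t ^ 2 * (C₃ * (1 + B)))) := by
    refine (lintegral_mono_set hcover).trans ((lintegral_union_le _ _ _).trans ?_)
    rw [ENNReal.ofReal_add hbd0 (by positivity)]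
    apply add_le_add
    · rw [hl2]
      exact ENNReal.ofReal_le_ofReal hN1
    · refine (IS4_union F _ _).trans ?_
      have h5 : ∀ c ∈ F, ∫⁻ z in ⋃ x ∈ Gf c, Y x '' ball 0 (3 * r / 4), ENNReal.ofReal (lap V z) ≤
          ENNReal.ofReal (36 * Real.pi / t ^ 2 * (C₃ * (1 + B))) := by
        intro c hc
        refine (IS4_union (Gf c) _ _).trans ?_
        refine (Finset.sum_le_sum fun x hx => hl3 c hc x hx).trans ?_
        rw [Finset.sum_const, nsmul_eq_mul, ← ENNReal.ofReal_natCast, ← ENNReal.ofReal_mul (Nat.cast_nonneg _)]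
        apply ENNReal.ofReal_le_ofReal
        exact mul_le_mul_of_nonneg_right (hGcard c hc) (by positivity)
      refine (Finset.sum_le_sum h5).trans ?_
      rw [Finset.sum_const, nsmul_eq_mul, ← ENNReal.ofReal_natCast, ← ENNReal.ofReal_mul (Nat.cast_nonneg _)]
  rw [hl1] at hsum
  have h5 := (ENNReal.ofReal_le_ofReal_iff (by positivity)).mp hsum
  refine h5.trans ?_
  have h6 : (F.card : ℝ) * (36 * Real.pi / t ^ 2 * (C₃ * (1 + B))) ≤
      (F.card * (36 * Real.pi * C₃) + 1) * (1 + B) / t ^ 2 := by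
    rw [le_div_iff₀ ht2]
    have h7 : (F.card : ℝ) * (36 * Real.pi / t ^ 2 * (C₃ * (1 + B))) * t ^ 2 =
        F.card * (36 * Real.pi * C₃) * (1 + B) := by
      field_simp
    rw [h7]
    nlinarith
  have h8 : 2 * C₂ * (1 + B) * E / Real.log (1 / r) = 2 * C₂ * (1 + B) * E / Real.log (1 / r) := rfl
  linarith

end Pool.Agent.P2I
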