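import Pool.Agent.helper15.P2.SpecB

set_option autoImplicit false

open scoped ContDiff Topology ComplexConjugate ENNReal
open MeasureTheory Filter Set Metric

namespace Pool.Agent.P2B

open Pool.Agent.P2 Pool.Agent.P2I

theorem BLC_lint {f : ℂ → ℝ} (hfc : ContinuousOn f (ball 0 1)) (hnn : ∀ z ∈ ball (0 : ℂ) 1, 0 ≤ f z)
    {K A : Set ℂ} (hK : IsCompact K) (hKb : K ⊆ ball 0 1) (hAK : A ⊆ K) :
    ∫⁻ z in A, ENNReal.ofReal (f z) = ENNReal.ofReal (∫ z in A, f z) := by
  have h1 : IntegrableOn f A := ((hfc.mono hKb).integrableOn_compact hK).mono_set hAK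
  have h2 : ∀ᵐ z ∂(volume.restrict A), 0 ≤ f z :=
    ae_restrict_of_ae_restrict_of_subset (hAK.trans hKb) (ae_restrict_of_forall_mem measurableSet_ball hnn)
  exact (ofReal_integral_eq_lintegral_ofReal h1 h2).symm

/-- the layer cake inequality at one point -/
theorem BLC_pt (κ ρ : ℝ) (hκ : 0 < κ) (T : ℕ → Prop) (hT : ∀ m : ℕ, ρ ≤ κ * (1 / 2) ^ m → T m)
    (w : ℕ → ℝ≥0∞) (hw : ∀ m, T m → w m = 1) :
    ENNReal.ofReal (Real.log (κ / ρ)) ≤ ∑' m, w m := by
  have key : ∀ N : ℕ, (∀ m < N, ρ ≤ κ * (1 / 2) ^ m) → (N : ℝ≥0∞) ≤ ∑' m, w m := by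
    intro N hN
    have h1 : ∑ m ∈ Finset.range N, w m = N := by
      rw [Finset.sum_congr rfl fun m hm => hw m (hT m (hN m (Finset.mem_range.mp hm)))]
      simp
    rw [← h1]
    exact ENNReal.sum_le_tsum _
  rcases le_or_gt ρ 0 with h0 | h0
  · obtain ⟨N, hN⟩ := exists_nat_ge (Real.log (κ / ρ))
    refine le_trans ?_ (key N fun m _ => h0.trans (by positivity))
    rw [← ENNReal.ofReal_natCast]
    exact ENNReal.ofReal_le_ofReal hN
  · rcases le_or_gt (Real.log (κ / ρ)) 0 with h1 | h1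
    · rw [ENNReal.ofReal_eq_zero.mpr h1]
      exact zero_le
    · have hl2 : 0 < Real.log 2 := Real.log_pos (by norm_num)
      have hl21 : Real.log 2 ≤ 1 := by
        have := Real.log_two_lt_d9
        linarith
      obtain ⟨N, hN⟩ : ∃ N : ℕ, N = ⌊Real.log (κ / ρ) / Real.log 2⌋₊ := ⟨_, rfl⟩
      have hN1 : (N : ℝ) ≤ Real.log (κ / ρ) / Real.log 2 := by
        rw [hN]
        exact Nat.floor_le (by positivity)
      have hN2 : Real.log (κ / ρ) / Real.log 2 < N + 1 := by
        rw [hN]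
        exact Nat.lt_floor_add_one _
      have hpow : (2 : ℝ) ^ N ≤ κ / ρ := by
        rw [le_div_iff₀ hl2] at hN1
        have h2 : Real.log ((2 : ℝ) ^ N) ≤ Real.log (κ / ρ) := by
          rw [Real.log_pow]
          exact hN1
        exact (Real.log_le_log_iff (by positivity) (by positivity)).mp h2
      have h3 : ρ ≤ κ * (1 / 2) ^ N := by
        rw [le_div_iff₀ h0] at hpow
        rw [one_div, inv_pow, ← div_eq_mul_inv, le_div_iff₀ (by positivity)]
        linarith
      refine le_trans ?_ (key (N + 1) ?_)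
      · rw [← ENNReal.ofReal_natCast]
        apply ENNReal.ofReal_le_ofReal
        rw [div_lt_iff₀ hl2] at hN2
        push_cast
        have h4 : (0 : ℝ) ≤ (N : ℝ) + 1 := by positivity
        nlinarith
      · intro m hm
        refine h3.trans (mul_le_mul_of_nonneg_left ?_ hκ.le)
        exact pow_le_pow_of_le_one (by norm_num) (by norm_num) (by omega)

theorem BLC (hBSL : BSL_stmt) (hIS1 : IS1_stmt) : BLC_stmt := by
  obtain ⟨C, hC, hI⟩ := hIS1
  refine ⟨C * (4 / 3), by positivity, ?_⟩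
  intro P Q E κ hND hκ hκ1 v hv h4
  obtain ⟨hA, hU, -, hcont⟩ := hBSL P Q E hND v hv
  have hE := hND.hE
  obtain ⟨f, hf⟩ : ∃ f : ℂ → ℝ, f = sph (sl P v) (sl Q v) := ⟨_, rfl⟩
  obtain ⟨ρ, hρ⟩ : ∃ ρ : ℂ → ℝ, ρ = rh (sl P v) (sl Q v) := ⟨_, rfl⟩
  have hfc : ContinuousOn f (ball 0 1) := by
    rw [hf]
    have h1 : ContinuousOn (fun x : ℂ => ((x, v) : ℂ × ℂ)) (ball 0 1) :=
      (continuous_id.prodMk continuous_const).continuousOn
    have h2 : MapsTo (fun x : ℂ => ((x, v) : ℂ × ℂ)) (ball 0 1) BI := fun x hx => ⟨hx, hv⟩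
    have h3 := ContinuousOn.comp (g := fun p : ℂ × ℂ => sph (sl P p.2) (sl Q p.2) p.1)
      (f := fun x : ℂ => ((x, v) : ℂ × ℂ)) hcont h1 h2
    have h4 : ((fun p : ℂ × ℂ => sph (sl P p.2) (sl Q p.2) p.1) ∘ fun x : ℂ => ((x, v) : ℂ × ℂ)) =
        sph (sl P v) (sl Q v) := by
      funext x
      rfl
    rw [h4] at h3
    exact h3
  have hnn : ∀ z, 0 ≤ f z := by
    intro z
    rw [hf]
    unfold sph
    exact div_nonneg (Complex.normSq_nonneg _) (sq_nonneg _)
  have hcb : closedBall (0 : ℂ) (3 / 4) ⊆ ball 0 1 := closedBall_subset_ball (by norm_num)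
  -- the layers
  obtain ⟨S, hS⟩ : ∃ S : ℕ → Set ℂ, S = fun m => ball (0 : ℂ) (3 / 4) ∩ {z | ρ z ≤ κ * (1 / 2) ^ m} := ⟨_, rfl⟩
  have hSK : ∀ m, S m ⊆ closedBall 0 (3 / 4) := by
    intro m
    rw [hS]
    exact Set.inter_subset_left.trans ball_subset_closedBall
  have hSfin : ∀ m, volume (S m) ≠ ⊤ := by
    intro m
    exact ne_of_lt (lt_of_le_of_lt (measure_mono (hSK m)) measure_closedBall_lt_top)
  obtain ⟨T, hT⟩ : ∃ T : ℕ → Set ℂ, T = fun m => toMeasurable volume (S m) := ⟨_, rfl⟩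
  have hTm : ∀ m, MeasurableSet (T m) := by
    intro m
    rw [hT]
    exact measurableSet_toMeasurable _ _
  have hST : ∀ m, S m ⊆ T m := by
    intro m
    rw [hT]
    exact subset_toMeasurable _ _
  have hTint : ∀ m, ∫⁻ x in T m, ENNReal.ofReal (f x) ≤ ENNReal.ofReal (C * E * (κ * (1 / 2) ^ m) ^ 2) := by
    intro m
    have h1 : volume.restrict (T m) = volume.restrict (S m) := by
      rw [hT]
      exact Measure.restrict_toMeasurable (hSfin m)
    rw [h1, BLC_lint hfc (fun z _ => hnn z) (isCompact_closedBall (0 : ℂ) (3 / 4)) hcb (hSK m)]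
    apply ENNReal.ofReal_le_ofReal
    have hp1 : (1 / 2 : ℝ) ^ m ≤ 1 := pow_le_one₀ (by norm_num) (by norm_num)
    have hp0 : (0 : ℝ) < (1 / 2) ^ m := by positivity
    have h2 := (hI (sl P v) (sl Q v) E (κ * (1 / 2) ^ m) hA hE hU h4 (by positivity) (by nlinarith)).1
    rw [hS, hf, hρ]
    exact h2
  -- pointwise
  have hpt : ∀ x ∈ ball (0 : ℂ) (1 / 2), ENNReal.ofReal (f x) * ENNReal.ofReal (Real.log (κ / ρ x)) ≤
      ∑' m, ENNReal.ofReal (f x) * (T m).indicator 1 x := by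
    intro x hx
    rw [ENNReal.tsum_mul_left]
    refine mul_le_mul' le_rfl ?_
    refine BLC_pt κ (ρ x) hκ (fun m => x ∈ T m) ?_ _ ?_
    · intro m hm
      apply hST m
      rw [hS]
      exact ⟨ball_subset_ball (by norm_num) hx, hm⟩
    · intro m hm
      rw [indicator_of_mem hm]
      rfl
  rw [← hf, ← hρ]
  refine (setLIntegral_mono' measurableSet_ball hpt).trans ?_
  have hfm : AEMeasurable (fun x => ENNReal.ofReal (f x)) (volume.restrict (ball (0 : ℂ) (1 / 2))) := by
    apply AEMeasurable.ennreal_ofReal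
    exact (hfc.mono (ball_subset_ball (by norm_num))).aemeasurable measurableSet_ball
  have hterm_m : ∀ m, AEMeasurable (fun x => ENNReal.ofReal (f x) * (T m).indicator 1 x)
      (volume.restrict (ball (0 : ℂ) (1 / 2))) := fun m =>
    hfm.mul ((measurable_one.indicator (hTm m)).aemeasurable)
  rw [lintegral_tsum hterm_m]
  have hterm : ∀ m, ∫⁻ x in ball (0 : ℂ) (1 / 2), ENNReal.ofReal (f x) * (T m).indicator 1 x ≤
      ENNReal.ofReal (C * E * κ ^ 2 * (1 / 4) ^ m) := by
    intro m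
    have h1 : ∀ x, ENNReal.ofReal (f x) * (T m).indicator 1 x =
        (T m).indicator (fun x => ENNReal.ofReal (f x)) x := by
      intro x
      by_cases hx : x ∈ T m
      · rw [indicator_of_mem hx, indicator_of_mem hx]
        simp
      · rw [indicator_of_notMem hx, indicator_of_notMem hx, mul_zero]
    rw [lintegral_congr h1]
    refine (setLIntegral_le_lintegral _ _).trans ?_
    rw [lintegral_indicator (hTm m)]
    refine (hTint m).trans (le_of_eq ?_)
    congr 1
    have h2 : ((1 / 2 : ℝ) ^ m) ^ 2 = (1 / 4) ^ m := by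
      rw [← pow_mul, mul_comm, pow_mul]
      norm_num
    rw [mul_pow, h2]
    ring
  refine (ENNReal.tsum_le_tsum hterm).trans ?_
  have hsum : Summable (fun m : ℕ => C * E * κ ^ 2 * (1 / 4 : ℝ) ^ m) :=
    (summable_geometric_of_lt_one (by norm_num) (by norm_num)).mul_left _
  rw [← ENNReal.ofReal_tsum_of_nonneg (fun m => by positivity) hsum, tsum_mul_left,
    tsum_geometric_of_lt_one (by norm_num) (by norm_num)]
  apply ENNReal.ofReal_le_ofReal
  apply le_of_eq
  ring

end Pool.Agent.P2B
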