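import Pool.Agent.helper15.P2.SpecN
import Pool.Agent.helper30.P2.IS4

set_option autoImplicit false

open scoped ContDiff Topology ComplexConjugate
open MeasureTheory Filter Set Metric

namespace Pool.Agent.P2N

open Pool.Agent.P2 Pool.Agent.P2I

theorem IX4 (hBRA : BRA_stmt) (hBRC : BRC_stmt) (hBRS : BRS_stmt) (hIX2 : IX2_stmt) (hISA : ISA_stmt) :
    IX4_stmt := by
  classical
  obtain ⟨C₂, hC₂, h2⟩ := hIX2
  obtain ⟨C₃, hC₃, h3⟩ := hISA
  refine ⟨2 * C₂, by positivity, ?_⟩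
  intro r hr hr8
  obtain ⟨F, hF1, hF2⟩ := IS4_cover (r / 8) (by positivity) (by linarith)
  have hpi := Real.pi_pos
  refine ⟨F.card * (36 * Real.pi * C₃) + 1, by positivity, ?_⟩
  intro P Q V E B t hA hE hU h4 hV hlap hB hVU hlog ht
  -- the centres
  obtain ⟨H, hH⟩ : ∃ H : Set ℂ, H = {x : ℂ | x ∈ ball (0 : ℂ) 1 ∧ ∃ Y : ℂ → ℂ, Br P Q (ball 0 1) x (3 * r / 2) Y ∧
    t ^ 2 ≤ 36 * (volume (Y '' ball 0 (3 * r / 2))).toReal} := ⟨_, rfl⟩
  have hch : ∀ x : ℂ, ∃ Y : ℂ → ℂ, x ∈ H → (Br P Q (ball 0 1) x (3 * r / 2) Y ∧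
      t ^ 2 ≤ 36 * (volume (Y '' ball 0 (3 * r / 2))).toReal) := by
    intro x
    by_cases hx : x ∈ H
    · have hx' := hx
      rw [hH] at hx'
      obtain ⟨-, Y, hY⟩ := hx'
      exact ⟨Y, fun _ => hY⟩
    · exact ⟨fun _ => 0, fun h => absurd h hx⟩
  choose Y hY using hch
  have hHb : ∀ x ∈ H, x ∈ ball (0 : ℂ) 1 := by
    intro x hx
    rw [hH] at hx
    exact hx.1
  obtain ⟨G, hG⟩ : ∃ G : ℂ × ℂ → Set ℂ, G = fun c => {x : ℂ | x ∈ H ∧ P x * c.2 = Q x * c.1} := ⟨_, rfl⟩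
  have hcount : ∀ c ∈ F, ∀ S : Finset ℂ, (S : Set ℂ) ⊆ G c → (S.card : ℝ) * t ^ 2 ≤ 36 * Real.pi := by
    intro c hc S hS
    refine IS4_count hBRA hA hr (hF1 c hc) S Y ?_
    intro x hx
    have h5 := hS hx
    rw [hG] at h5
    exact ⟨hHb x h5.1, h5.2, hY x h5.1⟩
  have ht2 : 0 < t ^ 2 := by positivity
  have hfin : ∀ c ∈ F, (G c).Finite := by
    intro c hc
    by_contra hinf
    obtain ⟨S, hS, hcard⟩ := Set.Infinite.exists_subset_card_eq hinf (⌊36 * Real.pi / t ^ 2⌋₊ + 1)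
    have h5 := hcount c hc S hS
    rw [hcard] at h5
    have h6 := Nat.lt_floor_add_one (36 * Real.pi / t ^ 2)
    rw [div_lt_iff₀ ht2] at h6
    push_cast at h5
    linarith
  have hch2 : ∀ c : ℂ × ℂ, ∃ S : Finset ℂ, c ∈ F → ∀ x, x ∈ S ↔ x ∈ G c := by
    intro c
    by_cases hc : c ∈ F
    · exact ⟨(hfin c hc).toFinset, fun _ x => (hfin c hc).mem_toFinset⟩
    · exact ⟨∅, fun h => absurd h hc⟩
  choose Gf hGf using hch2
  have hGcard : ∀ c ∈ F, ((Gf c).card : ℝ) ≤ 36 * Real.pi / t ^ 2 := by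
    intro c hc
    rw [le_div_iff₀ ht2]
    exact hcount c hc (Gf c) (fun x hx => (hGf c hc x).mp hx)
  -- the cover
  obtain ⟨N, hN⟩ : ∃ N : Set ℂ, N = ball (0 : ℂ) (791 / 1000) ∩
    {z | ¬ ∃ X : ℂ → ℂ, Br P Q (ball 0 1 ∩ ball z t) z r X} := ⟨_, rfl⟩
  obtain ⟨N₁, hN₁⟩ : ∃ N₁ : Set ℂ, N₁ = ball (0 : ℂ) (791 / 1000) ∩ {z | rh P Q z ≤ 2 * r} := ⟨_, rfl⟩
  rw [← hN]
  have h34 : ball (0 : ℂ) (791 / 1000) ⊆ ball 0 1 := ball_subset_ball (by norm_num)
  have hcover : N ⊆ N₁ ∪ ⋃ c ∈ F, ⋃ x ∈ Gf c, Y x '' ball 0 (3 * r / 4) := by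
    intro z hz
    rw [hN] at hz
    obtain ⟨hz1, hz2⟩ := hz
    by_cases hrh : rh P Q z ≤ 2 * r
    · left
      rw [hN₁]
      exact ⟨hz1, hrh⟩
    · right
      rw [not_le] at hrh
      have hzb := h34 hz1
      obtain ⟨c, hc, hD, hcs⟩ := hF2 (P z) (Q z) (hA.2.2 z hzb)
      obtain ⟨x, hxb, hfx, Y', hY', hYt, s, hs, hsz⟩ := IS4_geo hBRA hBRC hBRS hA hr hr8 ht hzb hrh hz2 hD hcs
      have hxH : x ∈ H := by
        rw [hH]
        exact ⟨hxb, Y', hY', hYt⟩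
      rw [Set.mem_iUnion₂]
      refine ⟨c, hc, ?_⟩
      rw [Set.mem_iUnion₂]
      refine ⟨x, ?_, s, hs, ?_⟩
      · rw [hGf c hc, hG]
        exact ⟨hxH, hfx⟩
      · rw [← hsz]
        have hs' : s ∈ ball (0 : ℂ) (3 * r / 2) := ball_subset_ball (by linarith) hs
        exact (hBRA P Q hA x hxb).2.2 (3 * r / 2) (3 * r / 2) (Y x) Y' (hY x hxH).1 hY' s hs' hs'
  -- integrals
  have hfc : ContinuousOn (lap V) (ball 0 1) := fun z hz =>
    (IS4_lapcont V z (hV.contDiffAt (isOpen_ball.mem_nhds hz))).continuousWithinAt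
  have hcb : closedBall (0 : ℂ) (791 / 1000) ⊆ ball 0 1 := closedBall_subset_ball (by norm_num)
  have hNK : N ⊆ closedBall 0 (791 / 1000) := by
    rw [hN]
    exact Set.inter_subset_left.trans ball_subset_closedBall
  have hN1K : N₁ ⊆ closedBall 0 (791 / 1000) := by
    rw [hN₁]
    exact Set.inter_subset_left.trans ball_subset_closedBall
  have hl1 := IS4_lint hfc hlap (isCompact_closedBall (0 : ℂ) (791 / 1000)) hcb hNK
  have hl2 := IS4_lint hfc hlap (isCompact_closedBall (0 : ℂ) (791 / 1000)) hcb hN1K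
  have hl3 : ∀ c ∈ F, ∀ x ∈ Gf c, ∫⁻ z in Y x '' ball 0 (3 * r / 4), ENNReal.ofReal (lap V z) ≤
      ENNReal.ofReal (C₃ * (1 + B)) := by
    intro c hc x hx
    rw [hGf c hc, hG] at hx
    have hxH : x ∈ H := hx.1
    have hBr := (hY x hxH).1
    have hsub : closedBall (0 : ℂ) (3 * r / 4) ⊆ ball 0 (3 * r / 2) := closedBall_subset_ball (by linarith)
    have hK : IsCompact (Y x '' closedBall 0 (3 * r / 4)) :=
      (isCompact_closedBall (0 : ℂ) (3 * r / 4)).image_of_continuousOn (hBr.1.continuousOn.mono hsub)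
    have hKb : Y x '' closedBall 0 (3 * r / 4) ⊆ ball 0 1 := by
      rintro w ⟨s, hs, rfl⟩
      exact (hBr.2.2 s (hsub hs)).1
    rw [IS4_lint hfc hlap hK hKb (Set.image_mono ball_subset_closedBall)]
    apply ENNReal.ofReal_le_ofReal
    have h5 := h3 P Q V B (3 * r / 2) x (Y x) hA hV hlap hB hVU (hHb x hxH) (by positivity) (by linarith) hBr
    have e1 : 3 * r / 2 / 2 = 3 * r / 4 := by ring
    rw [e1] at h5
    exact h5
  -- the first part
  have hlog8 : Real.log 8 ≤ Real.log (1 / r) := by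
    apply Real.log_le_log (by norm_num)
    rw [le_div_iff₀ hr]
    linarith
  have hlog2 : Real.log 8 = 3 * Real.log 2 := by
    rw [show (8 : ℝ) = 2 ^ 3 by norm_num, Real.log_pow]
    norm_num
  have hl2pos : 0 < Real.log 2 := Real.log_pos (by norm_num)
  have hlogr : Real.log (1 / (2 * r)) = Real.log (1 / r) - Real.log 2 := by
    rw [one_div, one_div, Real.log_inv, Real.log_inv, Real.log_mul (by norm_num) hr.ne']
    ring
  have hlogpos : 0 < Real.log (1 / r) := by linarith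
  have hN1 : ∫ z in N₁, lap V z ≤ 2 * C₂ * (1 + B) * E / Real.log (1 / r) := by
    rw [hN₁]
    have h5 := h2 P Q V E B (2 * r) hA hE hU h4 hV hlap hB hVU (by positivity) (by linarith)
      (by rw [hlogr]; linarith)
    refine h5.trans ?_
    rw [hlogr, div_le_div_iff₀ (by linarith) hlogpos]
    have h6 : 0 ≤ C₂ * (1 + B) * E := by positivity
    have h7 : Real.log (1 / r) ≤ 2 * (Real.log (1 / r) - Real.log 2) := by linarith
    calc C₂ * (1 + B) * E * Real.log (1 / r) ≤ C₂ * (1 + B) * E * (2 * (Real.log (1 / r) - Real.log 2)) :=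
          mul_le_mul_of_nonneg_left h7 h6
      _ = 2 * C₂ * (1 + B) * E * (Real.log (1 / r) - Real.log 2) := by ring
  have hbd0 : 0 ≤ 2 * C₂ * (1 + B) * E / Real.log (1 / r) := by positivity
  -- sum
  have hsum : ∫⁻ z in N, ENNReal.ofReal (lap V z) ≤
      ENNReal.ofReal (2 * C₂ * (1 + B) * E / Real.log (1 / r) + F.card * (36 * Real.pi / t ^ 2 * (C₃ * (1 + B)))) := by
    refine (lintegral_mono_set hcover).trans ((lintegral_union_le _ _ _).trans ?_)
    rw [ENNReal.ofReal_add hbd0 (by positivity)]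
    apply add_le_add
    · rw [hl2]
      exact ENNReal.ofReal_le_ofReal hN1
    · refine (IS4_union F _ _).trans ?_
      have h5 : ∀ c ∈ F, ∫⁻ z in ⋃ x ∈ Gf c, Y x '' ball 0 (3 * r / 4), ENNReal.ofReal (lap V z) ≤
          ENNReal.ofReal (36 * Real.pi / t ^ 2 * (C₃ * (1 + B))) := by
        intro c hc
        refine (IS4_union (Gf c) _ _).trans ?_
        refine (Finset.sum_le_sum fun x hx => hl3 c hc x hx).trans ?_
        rw [Finset.sum_const, nsmul_eq_mul, ← ENNReal.ofReal_natCast, ← ENNReal.ofReal_mul (Nat.cast_nonneg _)]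
        apply ENNReal.ofReal_le_ofReal
        exact mul_le_mul_of_nonneg_right (hGcard c hc) (by positivity)
      refine (Finset.sum_le_sum h5).trans ?_
      rw [Finset.sum_const, nsmul_eq_mul, ← ENNReal.ofReal_natCast, ← ENNReal.ofReal_mul (Nat.cast_nonneg _)]
  rw [hl1] at hsum
  have h5 := (ENNReal.ofReal_le_ofReal_iff (by positivity)).mp hsum
  refine h5.trans ?_
  have h6 : (F.card : ℝ) * (36 * Real.pi / t ^ 2 * (C₃ * (1 + B))) ≤
      (F.card * (36 * Real.pi * C₃) + 1) * (1 + B) / t ^ 2 := by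
    rw [le_div_iff₀ ht2]
    have h7 : (F.card : ℝ) * (36 * Real.pi / t ^ 2 * (C₃ * (1 + B))) * t ^ 2 =
        F.card * (36 * Real.pi * C₃) * (1 + B) := by
      field_simp
    rw [h7]
    nlinarith
  have h8 : 2 * C₂ * (1 + B) * E / Real.log (1 / r) = 2 * C₂ * (1 + B) * E / Real.log (1 / r) := rfl
  linarith

end Pool.Agent.P2N
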