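import Pool.Agent.helper37.P2.SpecB

set_option autoImplicit false

/-!
Row MIX: the random chains reach the whole minimal quasi-attractor.
-/

open scoped ContDiff Topology
open MeasureTheory Filter Set Metric MvPolynomial Pool.Agent.helper37.QA Pool.Agent.helper15.QB

namespace Pool.Agent.P2

theorem MIX_cone_mono {S S' : Set (PP 2)} (h : S ⊆ S') : cone S ⊆ cone S' := by
  rintro x ⟨hx, hS⟩
  exact ⟨hx, h hS⟩

theorem MIX_Near_mono {r r' : ℝ} (hr : r ≤ r') {A : M3} (hA : Near r A) : Near r' A :=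
  fun i j => lt_of_lt_of_le (hA i j) hr

theorem MIX_Ar_mono {r r' : ℝ} (hr : r ≤ r') {S S' : Set (PP 2)} (h : S ⊆ S') :
    Ar r S ⊆ Ar r' S' := by
  rintro p ⟨Z, hZ, A, hA, hne, hp⟩
  exact ⟨Z, MIX_cone_mono h hZ, A, MIX_Near_mono hr hA, hne, hp⟩

theorem MIX_Tr_mono {d : ℕ} (f : Endo 2 d) {r r' : ℝ} (hr : r ≤ r') {S S' : Set (PP 2)} (h : S ⊆ S') :
    Tr f r S ⊆ Tr f r' S' := Set.image_mono (MIX_Ar_mono hr h)

theorem MIX_Tr_iter_mono {d : ℕ} (f : Endo 2 d) {r r' : ℝ} (hr : r ≤ r') (n : ℕ) :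
    ∀ {S S' : Set (PP 2)}, S ⊆ S' → (Tr f r)^[n] S ⊆ (Tr f r')^[n] S' := by
  induction n with
  | zero => intro S S' h; exact h
  | succ n ih =>
    intro S S' h
    rw [Function.iterate_succ_apply, Function.iterate_succ_apply]
    exact ih (MIX_Tr_mono f hr h)

theorem MIX_Ar_single {r : ℝ} {S : Set (PP 2)} {p : PP 2} (hp : p ∈ Ar r S) : ∃ y ∈ S, p ∈ Ar r {y} := by
  obtain ⟨Z, ⟨hZ0, hZ⟩, A, hA, hne, hp⟩ := hp
  exact ⟨toPP ⟨Z, hZ0⟩, hZ, Z, ⟨hZ0, rfl⟩, A, hA, hne, hp⟩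

theorem MIX_mv_smul (A : M3) (c : ℂ) (Z : E3) : mv A (c • Z) = c • mv A Z := by
  funext i
  simp only [mv, Pi.smul_apply, smul_eq_mul, Finset.mul_sum]
  exact Finset.sum_congr rfl fun j _ => by ring

/-- product of matrices -/
def MIX_mul (A B : M3) : M3 := fun i j => ∑ k, A i k * B k j

theorem MIX_mv_mul (A B : M3) (Z : E3) : mv (MIX_mul A B) Z = mv A (mv B Z) := by
  funext i
  simp only [mv, MIX_mul, Fin.sum_univ_three]
  ring

theorem MIX_near_mul {s t r : ℝ} (hs : 0 < s) (ht : 0 < t) (hr : s + t + 3 * s * t ≤ r) {A B : M3}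
    (hA : Near s A) (hB : Near t B) : Near r (MIX_mul A B) := by
  intro i j
  have h1 : MIX_mul A B i j - one3 i j = (A i j - one3 i j) + (B i j - one3 i j) +
      ∑ k, (A i k - one3 i k) * (B k j - one3 k j) := by
    simp only [MIX_mul, Fin.sum_univ_three]
    fin_cases i <;> fin_cases j <;> simp [one3] <;> ring
  have h2 : ‖∑ k, (A i k - one3 i k) * (B k j - one3 k j)‖ ≤ ∑ _k : Fin 3, s * t := by
    refine (norm_sum_le _ _).trans (Finset.sum_le_sum fun k _ => ?_)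
    rw [norm_mul]
    exact mul_le_mul (hA i k).le (hB k j).le (norm_nonneg _) hs.le
  have h3 : ∑ _k : Fin 3, s * t = 3 * s * t := by
    simp
    ring
  rw [h3] at h2
  rw [h1]
  have h4 := norm_add_le ((A i j - one3 i j) + (B i j - one3 i j))
    (∑ k, (A i k - one3 i k) * (B k j - one3 k j))
  have h5 := norm_add_le (A i j - one3 i j) (B i j - one3 i j)
  have h6 := hA i j
  have h7 := hB i j
  linarith

theorem MIX_toPP_eq {v w : E3} (hv : v ≠ 0) (hw : w ≠ 0) (h : toPP (k := 2) ⟨v, hv⟩ = toPP ⟨w, hw⟩) :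
    ∃ c : ℂ, c ≠ 0 ∧ v = c • w := by
  obtain ⟨c, hc⟩ := (Projectivization.mk_eq_mk_iff' ℂ v w hv hw).1 h
  refine ⟨c, ?_, hc.symm⟩
  rintro rfl
  rw [zero_smul] at hc
  exact hv hc.symm

theorem MIX_comp {s t r : ℝ} (hs : 0 < s) (ht : 0 < t) (hr : s + t + 3 * s * t ≤ r) (S : Set (PP 2)) :
    Ar s (Ar t S) ⊆ Ar r S := by
  rintro p ⟨Z', ⟨hZ'0, Z, hZ, A, hA, hne, hZ'⟩, A', hA', hne', hp⟩
  obtain ⟨c, hc, hcZ⟩ := MIX_toPP_eq hZ'0 hne hZ'
  have h1 : mv A' Z' = c • mv (MIX_mul A' A) Z := by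
    rw [hcZ, MIX_mv_smul, MIX_mv_mul]
  have h2 : mv (MIX_mul A' A) Z ≠ 0 := by
    intro h
    rw [h, smul_zero] at h1
    exact hne' h1
  refine ⟨Z, hZ, MIX_mul A' A, MIX_near_mul hs ht hr hA' hA, h2, ?_⟩
  rw [hp]
  exact toPP_eq hne' h2 c h1.symm

/-- points near to the same point are near to each other -/
theorem MIX_small {ε : ℝ} (hε : 0 < ε) : ∃ ε' : ℝ, 0 < ε' ∧ ∀ x y z : PP 2, y ∈ Ar ε' {x} → z ∈ Ar ε' {x} →
    z ∈ Ar ε {y} := by
  obtain ⟨δ, hδ⟩ : ∃ δ : ℝ, δ = min (1 / 6) (ε / 13) := ⟨_, rfl⟩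
  have hδ0 : 0 < δ := by rw [hδ]; exact lt_min (by norm_num) (by positivity)
  have hδ1 : δ ≤ 1 / 6 := by rw [hδ]; exact min_le_left _ _
  have hδ2 : 13 * δ ≤ ε := by
    have : δ ≤ ε / 13 := by rw [hδ]; exact min_le_right _ _
    linarith
  refine ⟨δ, hδ0, ?_⟩
  rintro x y z ⟨Z, ⟨hZ0, hZ⟩, A, hA, hAne, hy⟩ ⟨W, ⟨hW0, hW⟩, B, hB, hBne, hz⟩
  have hWZ : toPP (k := 2) ⟨W, hW0⟩ = toPP ⟨Z, hZ0⟩ := by
    rw [Set.mem_singleton_iff.1 hW, Set.mem_singleton_iff.1 hZ]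
  obtain ⟨c, hc, hcW⟩ := MIX_toPP_eq hW0 hZ0 hWZ
  have hBZ : mv B W = c • mv B Z := by rw [hcW, MIX_mv_smul]
  have hBne' : mv B Z ≠ 0 := by
    intro h
    rw [h, smul_zero] at hBZ
    exact hBne hBZ
  have hz' : z = toPP ⟨mv B Z, hBne'⟩ := by
    rw [hz]
    exact toPP_eq hBne hBne' c hBZ.symm
  obtain ⟨i0, hi0⟩ := exists_norm_eq (m := 2) Z
  have hZn : 0 < ‖Z‖ := norm_pos_iff.2 hZ0
  have hdiff : ∀ (M : M3), Near δ M → ∀ i, ‖mv M Z i - Z i‖ ≤ 3 * δ * ‖Z‖ := by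
    intro M hM i
    have h1 : mv M Z i - Z i = ∑ j, (M i j - one3 i j) * Z j := by
      simp only [mv, Fin.sum_univ_three]
      fin_cases i <;> simp [one3] <;> ring
    rw [h1]
    refine (norm_sum_le _ _).trans ?_
    have h2 : ∀ j ∈ (Finset.univ : Finset (Fin 3)), ‖(M i j - one3 i j) * Z j‖ ≤ δ * ‖Z‖ := by
      intro j _
      rw [norm_mul]
      exact mul_le_mul (hM i j).le (norm_le_pi_norm Z j) (norm_nonneg _) hδ0.le
    refine (Finset.sum_le_sum h2).trans ?_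
    simp
    linarith
  have hAi : ‖Z‖ / 2 ≤ ‖mv A Z i0‖ := by
    have h1 := hdiff A hA i0
    have h2 : ‖Z i0‖ ≤ ‖mv A Z i0‖ + ‖mv A Z i0 - Z i0‖ := by
      have h3 := norm_sub_norm_le (Z i0) (mv A Z i0)
      rw [norm_sub_rev] at h3
      linarith
    rw [hi0] at h2
    have h4 : 3 * δ * ‖Z‖ ≤ ‖Z‖ / 2 := by nlinarith
    linarith
  have hAi0 : mv A Z i0 ≠ 0 := by
    intro h
    rw [h, norm_zero] at hAi
    linarith
  obtain ⟨M, hM⟩ : ∃ M : M3, M = fun i j => one3 i j + (if j = i0 then (mv B Z i - mv A Z i) / mv A Z i0 else 0) :=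
    ⟨_, rfl⟩
  have hMmv : mv M (mv A Z) = mv B Z := by
    funext i
    have h1 : mv M (mv A Z) i = ∑ j, one3 i j * mv A Z j +
        ∑ j, (if j = i0 then (mv B Z i - mv A Z i) / mv A Z i0 else 0) * mv A Z j := by
      rw [← Finset.sum_add_distrib]
      change ∑ j, M i j * mv A Z j = _
      refine Finset.sum_congr rfl fun j _ => ?_
      rw [hM]
      ring
    have h2 : ∑ j, one3 i j * mv A Z j = mv A Z i := by
      simp [one3]
    have h3 : ∑ j, (if j = i0 then (mv B Z i - mv A Z i) / mv A Z i0 else 0) * mv A Z j =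
        mv B Z i - mv A Z i := by
      rw [Finset.sum_eq_single i0]
      · rw [if_pos rfl, div_mul_cancel₀ _ hAi0]
      · intro j _ hj
        rw [if_neg hj, zero_mul]
      · intro h
        exact absurd (Finset.mem_univ _) h
    rw [h1, h2, h3]
    ring
  have hMnear : Near ε M := by
    intro i j
    have h1 : M i j - one3 i j = if j = i0 then (mv B Z i - mv A Z i) / mv A Z i0 else 0 := by
      rw [hM]
      ring
    rw [h1]
    by_cases hj : j = i0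
    · rw [if_pos hj, norm_div]
      have h2 : ‖mv B Z i - mv A Z i‖ ≤ 6 * δ * ‖Z‖ := by
        have h3 := hdiff A hA i
        have h4 := hdiff B hB i
        have h5 : mv B Z i - mv A Z i = (mv B Z i - Z i) - (mv A Z i - Z i) := by ring
        rw [h5]
        have h6 := norm_sub_le (mv B Z i - Z i) (mv A Z i - Z i)
        linarith
      have h7 : 0 < ‖mv A Z i0‖ := norm_pos_iff.2 hAi0
      rw [div_lt_iff₀ h7]
      have h8 : 6 * δ * ‖Z‖ ≤ 12 * δ * ‖mv A Z i0‖ := by nlinarith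
      have h9 : 12 * δ * ‖mv A Z i0‖ < ε * ‖mv A Z i0‖ := by
        apply mul_lt_mul_of_pos_right _ h7
        linarith
      linarith
    · rw [if_neg hj, norm_zero]
      exact hε
  have hMne : mv M (mv A Z) ≠ 0 := by
    rw [hMmv]
    exact hBne'
  refine ⟨mv A Z, ⟨hAne, ?_⟩, M, hMnear, hMne, ?_⟩
  · rw [Set.mem_singleton_iff, hy]
  · rw [hz']
    congr 1
    exact Subtype.ext hMmv.symm

/-- following the map without perturbation -/
theorem MIX_follow (hRAD : RAD_stmt) {d : ℕ} (f : Endo 2 d) {s : ℝ} (hs : 0 < s) (S : Set (PP 2)) (n : ℕ)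
    (p : PP 2) (hp : p ∈ Ar s ((Tr f s)^[n] S)) (q : ℕ) : f.map^[q + 1] p ∈ (Tr f s)^[n + (q + 1)] S := by
  induction q with
  | zero =>
    rw [zero_add, Function.iterate_one, Function.iterate_succ_apply']
    exact ⟨p, hp, rfl⟩
  | succ q ih =>
    rw [Function.iterate_succ_apply' f.map, show n + (q + 1 + 1) = (n + (q + 1)) + 1 by ring,
      Function.iterate_succ_apply' (Tr f s)]
    exact ⟨_, (hRAD.2.2.1 s hs _).2 ih, rfl⟩

/-- the sets of points reached are trapping -/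
theorem MIX_trap (hRAD : RAD_stmt) {d : ℕ} (f : Endo 2 d) {s : ℝ} (hs : 0 < s) (S : Set (PP 2)) (hS : S.Nonempty)
    (q : ℕ) (hq : 0 < q) :
    IsOpen (⋃ j : ℕ, Ar s ((Tr f s)^[q * j] S)) ∧ (⋃ j : ℕ, Ar s ((Tr f s)^[q * j] S)).Nonempty ∧
      f.map^[q] '' closure (⋃ j : ℕ, Ar s ((Tr f s)^[q * j] S)) ⊆ ⋃ j : ℕ, Ar s ((Tr f s)^[q * j] S) := by
  refine ⟨isOpen_iUnion fun j => (hRAD.2.2.1 s hs _).1, ?_, ?_⟩
  · obtain ⟨x, hx⟩ := hS
    refine ⟨x, Set.mem_iUnion.2 ⟨0, ?_⟩⟩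
    rw [mul_zero, Function.iterate_zero, id]
    exact (hRAD.2.2.1 s hs _).2 hx
  · rintro _ ⟨p, hp, rfl⟩
    obtain ⟨ε', hε', hsm⟩ := MIX_small hs
    have hO := hRAD.2.2.1 ε' hε' {f.map^[q] p}
    have hcont : Continuous (f.map^[q]) := (map_cont f).iterate q
    obtain ⟨p', hp'1, hp'2⟩ := mem_closure_iff.1 hp _ (hO.1.preimage hcont) (hO.2 rfl)
    obtain ⟨j, hj⟩ := Set.mem_iUnion.1 hp'2
    have h1 : f.map^[q] p ∈ Ar s {f.map^[q] p'} := hsm _ _ _ hp'1 (hO.2 rfl)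
    have h2 : f.map^[q] p' ∈ (Tr f s)^[q * (j + 1)] S := by
      have h3 := MIX_follow hRAD f hs S (q * j) p' hj (q - 1)
      rw [show q - 1 + 1 = q by omega] at h3
      rw [mul_add, mul_one]
      exact h3
    refine Set.mem_iUnion.2 ⟨j + 1, ?_⟩
    exact MIX_Ar_mono le_rfl (Set.singleton_subset_iff.2 h2) h1

theorem MIX_trap_it (hRAD : RAD_stmt) {d : ℕ} (f : Endo 2 d) {s : ℝ} (hs : 0 < s) (S : Set (PP 2)) (hS : S.Nonempty)
    (q : ℕ) (hq : 0 < q) : IsTrapping (itE f q) (⋃ j : ℕ, Ar s ((Tr f s)^[q * j] S)) := by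
  obtain ⟨h1, h2, h3⟩ := MIX_trap hRAD f hs S hS q hq
  refine ⟨h1, h2, ?_⟩
  rw [itE_map]
  exact h3

theorem MIX_trap_one (hRAD : RAD_stmt) {d : ℕ} (f : Endo 2 d) {s : ℝ} (hs : 0 < s) (S : Set (PP 2)) (hS : S.Nonempty) :
    IsTrapping f (⋃ j : ℕ, Ar s ((Tr f s)^[j] S)) := by
  have h := MIX_trap hRAD f hs S hS 1 one_pos
  simp only [one_mul, Function.iterate_one] at h
  exact h

theorem MIX_inv {d : ℕ} {f : Endo 2 d} {Us : ℕ → Set (PP 2)} {K : Set (PP 2)} (hC : Core f Us K) :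
    ∀ p ∈ K, f.map p ∈ K := by
  intro p hp
  rw [hC.inter] at hp ⊢
  refine Set.mem_iInter.2 fun n => ?_
  exact (hC.trap n).2.2 ⟨p, subset_closure (Set.mem_iInter.1 hp n), rfl⟩

theorem MIX_closures {d : ℕ} {f : Endo 2 d} {Us : ℕ → Set (PP 2)} {K : Set (PP 2)} (hC : Core f Us K) :
    K = ⋂ n, closure (Us n) := by
  rw [hC.inter]
  apply Set.Subset.antisymm
  · exact Set.iInter_mono fun n => subset_closure
  · intro p hp
    refine Set.mem_iInter.2 fun n => hC.anti n ?_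
    exact Set.mem_iInter.1 hp (n + 1)

theorem MIX_closed {d : ℕ} {f : Endo 2 d} {Us : ℕ → Set (PP 2)} {K : Set (PP 2)} (hC : Core f Us K) :
    IsClosed K := by
  rw [MIX_closures hC]
  exact isClosed_iInter fun n => isClosed_closure

theorem MIX_surj {d : ℕ} {f : Endo 2 d} {Us : ℕ → Set (PP 2)} {K : Set (PP 2)} (hC : Core f Us K) :
    ∀ p ∈ K, ∃ y ∈ K, f.map y = p := by
  intro p hp
  have h1 : ∀ n, ∃ y ∈ closure (Us n), f.map y = p := by
    intro n
    by_contra hcon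
    push Not at hcon
    have hsub : f.map '' closure (Us n) ⊆ Us n \ {p} := by
      rintro _ ⟨y, hy, rfl⟩
      exact ⟨(hC.trap n).2.2 ⟨y, hy, rfl⟩, fun h => hcon y hy h⟩
    obtain ⟨x, hx⟩ := hC.ne
    have hxn : x ∈ Us n := by
      rw [hC.inter] at hx
      exact Set.mem_iInter.1 hx n
    have hfx : f.map x ∈ Us n \ {p} := hsub ⟨x, subset_closure hxn, rfl⟩
    have hV : IsTrapping f (Us n \ {p}) := by
      refine ⟨(hC.trap n).1.sdiff isClosed_singleton, ⟨_, hfx⟩, ?_⟩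
      exact (Set.image_mono (closure_mono Set.sdiff_subset)).trans hsub
    exact (hC.minimal _ hV ⟨_, hfx, MIX_inv hC x hx⟩ hp).2 rfl
  have h2 : (⋂ n, closure (Us n) ∩ f.map ⁻¹' {p}).Nonempty := by
    refine IsCompact.nonempty_iInter_of_sequence_nonempty_isCompact_isClosed _ ?_ ?_ ?_ ?_
    · intro n
      exact Set.inter_subset_inter_left _ ((hC.anti n).trans subset_closure)
    · intro n
      obtain ⟨y, hy, hyp⟩ := h1 n
      exact ⟨y, hy, hyp⟩
    · exact (isClosed_closure.inter (isClosed_singleton.preimage (map_cont f))).isCompact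
    · intro n
      exact isClosed_closure.inter (isClosed_singleton.preimage (map_cont f))
  obtain ⟨y, hy⟩ := h2
  rw [Set.mem_iInter] at hy
  refine ⟨y, ?_, (hy 0).2⟩
  rw [MIX_closures hC]
  exact Set.mem_iInter.2 fun n => (hy n).1

/-- the chains from one point of `K` -/
theorem MIX_point (hPMIN : PMIN_stmt) (hRAD : RAD_stmt) {d : ℕ} (hd : 2 ≤ d) {f : Endo 2 d} {Us : ℕ → Set (PP 2)}
    {K : Set (PP 2)} (hC : Core f Us K) {r s : ℝ} (hs : 0 < s) (hsr : s + s + 3 * s * s ≤ r) (x : PP 2) (hx : x ∈ K) :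
    ∃ n0 : ℕ, ∀ n ≥ n0, K ⊆ Ar r ((Tr f r)^[n] {x}) := by
  have hsr' : s ≤ r := by nlinarith [mul_pos hs hs]
  have hr : 0 < r := lt_of_lt_of_le hs hsr'
  have hfx : f.map x ∈ Tr f s {x} := ⟨x, (hRAD.2.2.1 s hs _).2 rfl, rfl⟩
  -- a loop
  obtain ⟨q, hq, hloop⟩ : ∃ q : ℕ, 0 < q ∧ x ∈ Ar s ((Tr f s)^[q] {x}) := by
    have h1 := MIX_trap_one hRAD f hs (Tr f s {x}) ⟨_, hfx⟩
    have h2 : K ⊆ ⋃ j : ℕ, Ar s ((Tr f s)^[j] (Tr f s {x})) := by
      refine hC.minimal _ h1 ⟨f.map x, Set.mem_iUnion.2 ⟨0, ?_⟩, MIX_inv hC x hx⟩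
      exact (hRAD.2.2.1 s hs _).2 hfx
    obtain ⟨j, hj⟩ := Set.mem_iUnion.1 (h2 hx)
    refine ⟨j + 1, Nat.succ_pos j, ?_⟩
    rw [Function.iterate_succ_apply]
    exact hj
  have hcov : K ⊆ ⋃ j : ℕ, Ar s ((Tr f s)^[q * j] {x}) := by
    refine hPMIN d f Us K hd hC q hq _ (MIX_trap_it hRAD f hs {x} ⟨x, rfl⟩ q hq) ?_
    refine ⟨x, Set.mem_iUnion.2 ⟨0, ?_⟩, hx⟩
    rw [mul_zero]
    exact (hRAD.2.2.1 s hs _).2 rfl
  obtain ⟨t, ht⟩ := (MIX_closed hC).isCompact.elim_finite_subcover _ (fun j => (hRAD.2.2.1 s hs _).1) hcov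
  obtain ⟨y, hy, hxy⟩ := MIX_Ar_single hloop
  -- following the loop
  have hP : ∀ k : ℕ, Ar s {x} ⊆ Ar r ((Tr f r)^[q * k] {x}) := by
    intro k
    induction k with
    | zero =>
      rw [mul_zero]
      exact MIX_Ar_mono hsr' subset_rfl
    | succ k ih =>
      have h1 : y ∈ (Tr f r)^[q * (k + 1)] {x} := by
        obtain ⟨q', rfl⟩ : ∃ q' : ℕ, q = q' + 1 := ⟨q - 1, by omega⟩
        rw [Function.iterate_succ_apply] at hy
        have h2 : Tr f s {x} ⊆ (Tr f r)^[(q' + 1) * k + 1] {x} := by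
          rw [Function.iterate_succ_apply']
          exact Set.image_mono ih
        have h3 := MIX_Tr_iter_mono f hsr' q' h2 hy
        rw [← Function.iterate_add_apply] at h3
        rw [show (q' + 1) * (k + 1) = q' + ((q' + 1) * k + 1) by ring]
        exact h3
      have h4 : Ar s {x} ⊆ Ar s (Ar s {y}) := MIX_Ar_mono le_rfl (Set.singleton_subset_iff.2 hxy)
      refine (h4.trans (MIX_comp hs hs hsr {y})).trans ?_
      exact MIX_Ar_mono le_rfl (Set.singleton_subset_iff.2 h1)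
  have hQ : ∀ j k : ℕ, Ar s ((Tr f s)^[q * j] {x}) ⊆ Ar r ((Tr f r)^[q * (j + k)] {x}) := by
    intro j k
    rcases Nat.eq_zero_or_pos (q * j) with h0 | h0
    · have hj : j = 0 := by
        rcases Nat.mul_eq_zero.1 h0 with h | h
        · omega
        · exact h
      rw [h0, hj, zero_add]
      exact hP k
    · obtain ⟨l, hl⟩ : ∃ l : ℕ, q * j = l + 1 := ⟨q * j - 1, by omega⟩
      rw [hl, Function.iterate_succ_apply]
      have h2 : Tr f s {x} ⊆ (Tr f r)^[q * k + 1] {x} := by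
        rw [Function.iterate_succ_apply']
        exact Set.image_mono (hP k)
      refine MIX_Ar_mono hsr' ?_
      have h3 := MIX_Tr_iter_mono f hsr' l h2
      rw [← Function.iterate_add_apply] at h3
      rw [show q * (j + k) = l + (q * k + 1) by rw [mul_add, hl]; ring]
      exact h3
  refine ⟨q * t.sup id, fun n hn => ?_⟩
  induction n, hn using Nat.le_induction with
  | base =>
    intro p hp
    have h1 := ht hp
    simp only [Set.mem_iUnion] at h1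
    obtain ⟨j, hj, hpj⟩ := h1
    have h2 : j ≤ t.sup id := Finset.le_sup (f := id) hj
    have h3 := hQ j (t.sup id - j) hpj
    rw [show j + (t.sup id - j) = t.sup id by omega] at h3
    exact h3
  | succ n hn ih =>
    intro p hp
    obtain ⟨y', hy', rfl⟩ := MIX_surj hC p hp
    refine (hRAD.2.2.1 r hr _).2 ?_
    rw [Function.iterate_succ_apply']
    exact ⟨y', ih hy', rfl⟩

theorem MIX (hPMIN : PMIN_stmt) (hINT : INT_stmt) (hRAD : RAD_stmt) : MIX_stmt := by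
  intro d f Us K r hd hC hr hr1 hRad B hBo hB hch
  have hs : 0 < r / 4 := by positivity
  have hs' : 0 < r / 16 := by positivity
  have hRad' : Rad (r / 4) (f.map '' closure (Us 0)) (Us 0) := fun A hA Z hZ =>
    hRad A (MIX_Near_mono (by linarith) hA) Z hZ
  -- the chains from `B`
  have hBne : B.Nonempty := by
    obtain ⟨Z, hZ, -⟩ := hch
    obtain ⟨h0, h1⟩ := hZ.2 0 (mem_ball_self one_pos)
    exact ⟨_, h1⟩
  have htr := MIX_trap_one hRAD f hs B hBne
  have hin : ∀ S : Set (PP 2), S ⊆ f.map '' (Us 0) → Ar (r / 4) S ⊆ Us 0 := by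
    rintro S hS p ⟨Z, hZ, A, hA, hne, rfl⟩
    have h1 : Z ∈ cone (f.map '' closure (Us 0)) :=
      MIX_cone_mono (hS.trans (Set.image_mono subset_closure)) hZ
    obtain ⟨h2, h3⟩ := hRad' A hA Z h1
    exact h3
  have hTn : ∀ j : ℕ, (Tr f (r / 4))^[j] B ⊆ f.map '' (Us 0) := by
    intro j
    induction j with
    | zero => exact hB
    | succ j ih =>
      rw [Function.iterate_succ_apply']
      exact Set.image_mono (hin _ ih)
  have hR0 : (⋃ j : ℕ, Ar (r / 4) ((Tr f (r / 4))^[j] B)) ⊆ Us 0 :=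
    Set.iUnion_subset fun j => hin _ (hTn j)
  have hmono : ∀ n, Us n ⊆ Us 0 := by
    intro n
    induction n with
    | zero => exact subset_rfl
    | succ n ih => exact (subset_closure.trans (hC.anti n)).trans ih
  have hgood : ∀ V : Set (PP 2), IsTrapping f V → V ⊆ Us 0 → Good0 f V := by
    intro V hV hV0
    refine ⟨hV, fun Z h h0 h1 hcl => ?_⟩
    exact hC.good.2 Z h h0 h1 (closure_mono hV0 hcl)
  have hchR : Charged f (⋃ j : ℕ, Ar (r / 4) ((Tr f (r / 4))^[j] B)) := by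
    obtain ⟨Z, hZ, hc⟩ := hch
    refine ⟨Z, ⟨hZ.1, fun z hz => MIX_cone_mono ?_ (hZ.2 z hz)⟩, hc⟩
    refine Set.Subset.trans ?_ (Set.subset_iUnion _ 0)
    exact (hRAD.2.2.1 (r / 4) hs B).2
  have hmeet : ((⋃ j : ℕ, Ar (r / 4) ((Tr f (r / 4))^[j] B)) ∩ K).Nonempty := by
    have h1 : (⋂ n, closure (⋃ j : ℕ, Ar (r / 4) ((Tr f (r / 4))^[j] B)) ∩ closure (Us n)).Nonempty := by
      refine IsCompact.nonempty_iInter_of_sequence_nonempty_isCompact_isClosed _ ?_ ?_ ?_ ?_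
      · intro n
        exact Set.inter_subset_inter_right _ ((hC.anti n).trans subset_closure)
      · intro n
        obtain ⟨p, hp1, hp2⟩ := hINT d f _ (Us n) hd (hgood _ htr hR0) (hgood _ (hC.trap n) (hmono n)) hchR (hC.charged n)
        exact ⟨p, subset_closure hp1, subset_closure hp2⟩
      · exact (isClosed_closure.inter isClosed_closure).isCompact
      · intro n
        exact isClosed_closure.inter isClosed_closure
    obtain ⟨p, hp⟩ := h1
    rw [Set.mem_iInter] at hp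
    have hpK : p ∈ K := by
      rw [MIX_closures hC]
      exact Set.mem_iInter.2 fun n => (hp n).2
    exact ⟨f.map p, htr.2.2 ⟨p, (hp 0).1, rfl⟩, MIX_inv hC p hpK⟩
  have hKR := hC.minimal _ htr hmeet
  obtain ⟨x, hx⟩ := hC.ne
  obtain ⟨j, hj⟩ := Set.mem_iUnion.1 (hKR hx)
  obtain ⟨y, hy, hxy⟩ := MIX_Ar_single hj
  obtain ⟨n0, hn0⟩ := MIX_point hPMIN hRAD hd hC (r := r / 4) (s := r / 16) hs' (by nlinarith) x hx
  refine ⟨n0 + 1 + j, fun n hn => ?_⟩
  have h1 := hn0 (n - j) (by omega)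
  refine h1.trans (MIX_Ar_mono (by linarith) ?_)
  obtain ⟨l, hl⟩ : ∃ l : ℕ, n - j = l + 1 := ⟨n - j - 1, by omega⟩
  rw [hl, Function.iterate_succ_apply]
  have h2 : Tr f (r / 4) {x} ⊆ (Tr f r)^[j + 1] B := by
    rw [Function.iterate_succ_apply']
    refine Set.image_mono ?_
    have h3 : Ar (r / 4) {x} ⊆ Ar (r / 4) (Ar (r / 4) {y}) := MIX_Ar_mono le_rfl (Set.singleton_subset_iff.2 hxy)
    refine (h3.trans (MIX_comp hs hs (r := r) (by nlinarith) {y})).trans (MIX_Ar_mono le_rfl ?_)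
    exact Set.singleton_subset_iff.2 (MIX_Tr_iter_mono f (by linarith) j subset_rfl hy)
  have h4 := MIX_Tr_iter_mono f (show r / 4 ≤ r by linarith) l h2
  rw [← Function.iterate_add_apply] at h4
  rw [show n = l + (j + 1) by omega]
  exact h4

end Pool.Agent.P2
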