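import Pool.Agent.helper56.P2.SpecU

set_option autoImplicit false

namespace Pool.Agent.P2U

open MeasureTheory Set Filter Topology Metric Complex
open scoped ENNReal ContDiff

/-- one variable -/
theorem UNUL_one (g : ℂ → ℂ) (r : ℝ) (hg : AnalyticOnNhd ℂ g (ball 0 r)) (hne : ∃ z ∈ ball (0 : ℂ) r, g z ≠ 0) :
    volume {z | z ∈ ball (0 : ℂ) r ∧ g z = 0} = 0 := by
  refine measure_null_of_locally_null _ ?_
  rintro z ⟨hz, hgz⟩
  rcases (hg z hz).eventually_eq_zero_or_eventually_ne_zero with h | h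
  · exfalso
    obtain ⟨w, hw, hgw⟩ := hne
    have h1 := hg.eqOn_zero_of_preconnected_of_eventuallyEq_zero (convex_ball (0 : ℂ) r).isPreconnected hz h
    exact hgw (h1 hw)
  · refine ⟨{z}, ?_, by simp⟩
    rw [eventually_nhdsWithin_iff] at h
    have h1 : ∀ᶠ w in 𝓝[{z | z ∈ ball (0 : ℂ) r ∧ g z = 0}] z, w ∈ ({z} : Set ℂ) := by
      filter_upwards [h.filter_mono nhdsWithin_le_nhds, self_mem_nhdsWithin] with w h2 h3
      by_contra h4
      exact h2 h4 h3.2
    exact h1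

theorem UNUL : UNUL_stmt := by
  intro f a r hf hne
  obtain ⟨⟨x0, v0⟩, ⟨hx0, hv0⟩, hf0⟩ := hne
  have hTo : IsOpen (TB a r) :=
    (isOpen_lt (continuous_norm.comp continuous_fst) continuous_const).inter
      (isOpen_lt (continuous_norm.comp continuous_snd) continuous_const)
  have hmeas : MeasurableSet {p : ℂ × ℂ | p ∈ TB a r ∧ f p = 0} := by
    have h1 : IsOpen (TB a r ∩ f ⁻¹' {0}ᶜ) := hf.continuousOn.isOpen_inter_preimage hTo isOpen_compl_singleton
    have h2 : {p : ℂ × ℂ | p ∈ TB a r ∧ f p = 0} = TB a r \ (TB a r ∩ f ⁻¹' {0}ᶜ) := by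
      ext p
      simp only [Set.mem_ofPred_eq, Set.mem_sdiff, Set.mem_inter_iff, Set.mem_preimage, Set.mem_compl_iff,
        Set.mem_singleton_iff, not_and, not_not]
      constructor
      · rintro ⟨h3, h4⟩
        exact ⟨h3, fun _ => h4⟩
      · rintro ⟨h3, h4⟩
        exact ⟨h3, h4 h3⟩
    rw [h2]
    exact hTo.measurableSet.diff h1.measurableSet
  have hvol : (volume : Measure (ℂ × ℂ)) = (volume : Measure ℂ).prod volume := rfl
  rw [hvol, Measure.measure_prod_null hmeas]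
  have hbad : volume {x | x ∈ ball (0 : ℂ) a ∧ f (x, v0) = 0} = 0 := by
    refine UNUL_one (fun x => f (x, v0)) a ?_ ⟨x0, by simpa using hx0, hf0⟩
    intro x hx
    have h1 : (x, v0) ∈ TB a r := ⟨by simpa using hx, hv0⟩
    exact (hf _ h1).curry_left
  have hae : ∀ᵐ x : ℂ, ¬ (x ∈ ball (0 : ℂ) a ∧ f (x, v0) = 0) := by
    rw [ae_iff]
    simpa only [not_not] using hbad
  filter_upwards [hae] with x hx
  change volume (Prod.mk x ⁻¹' {p : ℂ × ℂ | p ∈ TB a r ∧ f p = 0}) = 0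
  by_cases hxa : ‖x‖ < a
  · have h1 : f (x, v0) ≠ 0 := fun h => hx ⟨by simpa using hxa, h⟩
    have h2 : Prod.mk x ⁻¹' {p : ℂ × ℂ | p ∈ TB a r ∧ f p = 0} = {v | v ∈ ball (0 : ℂ) r ∧ f (x, v) = 0} := by
      ext v
      constructor
      · rintro ⟨⟨h3, h4⟩, h5⟩
        exact ⟨by simpa using h4, h5⟩
      · rintro ⟨h4, h5⟩
        exact ⟨⟨hxa, by simpa using h4⟩, h5⟩
    rw [h2]
    refine UNUL_one (fun v => f (x, v)) r ?_ ⟨v0, by simpa using hv0, h1⟩
    intro v hv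
    have h3 : (x, v) ∈ TB a r := ⟨hxa, by simpa using hv⟩
    exact (hf _ h3).curry_right
  · have h2 : Prod.mk x ⁻¹' {p : ℂ × ℂ | p ∈ TB a r ∧ f p = 0} = ∅ := by
      ext v
      simp only [Set.mem_empty_iff_false, iff_false]
      rintro ⟨⟨h3, h4⟩, h5⟩
      exact hxa h3
    rw [h2]
    simp

end Pool.Agent.P2U
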